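import Mathlib

open Filter Real

namespace Pool.Agent.Helper16

/-- Small-o facts collected. -/
lemma eventually_facts (lam δ κ E D : ℝ) (hlam : 0 < lam) (hδ : 0 < δ) (hκ : κ < 1) :
    ∀ᶠ t : ℝ in atTop, 1 ≤ t ∧ 1 ≤ log t ∧ log (log t) ≤ δ * log t ∧ 1 ≤ δ * log t ∧
      -log lam ≤ δ * log t ∧ E * t ^ κ ≤ δ * t ∧ D * log t ≤ δ * t ∧ 1 ≤ δ * t ∧
      2 * (lam * t / log t + 1) ≤ δ * t := by
  have hlog := tendsto_log_atTop
  have h1 : ∀ᶠ t : ℝ in atTop, 1 ≤ t := eventually_ge_atTop 1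
  have h2 : ∀ᶠ t : ℝ in atTop, 1 ≤ log t := hlog.eventually_ge_atTop 1
  have h3 : ∀ᶠ t : ℝ in atTop, log (log t) ≤ δ * log t := by
    have h : ∀ᶠ s : ℝ in atTop, log s ≤ δ * s := by
      have := isLittleO_log_id_atTop.bound hδ
      filter_upwards [this, eventually_ge_atTop 1] with s hs hs1
      simp only [id] at hs
      rw [norm_eq_abs, norm_eq_abs, abs_of_nonneg (log_nonneg hs1), abs_of_nonneg (by linarith)] at hs
      exact hs
    exact hlog.eventually h
  have h4 : ∀ᶠ t : ℝ in atTop, 1 ≤ δ * log t := by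
    have : Tendsto (fun t : ℝ => δ * log t) atTop atTop := hlog.const_mul_atTop hδ
    exact this.eventually_ge_atTop 1
  have h5 : ∀ᶠ t : ℝ in atTop, -log lam ≤ δ * log t := by
    have : Tendsto (fun t : ℝ => δ * log t) atTop atTop := hlog.const_mul_atTop hδ
    exact this.eventually_ge_atTop _
  have h6 : ∀ᶠ t : ℝ in atTop, E * t ^ κ ≤ δ * t := by
    have h : Tendsto (fun t : ℝ => E * t ^ (-(1 - κ))) atTop (nhds (E * 0)) :=
      (tendsto_rpow_neg_atTop (by linarith)).const_mul E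
    rw [mul_zero] at h
    have h' : ∀ᶠ t : ℝ in atTop, E * t ^ (-(1 - κ)) < δ := h.eventually (gt_mem_nhds hδ)
    filter_upwards [h', h1] with t ht ht1
    have ht0 : 0 < t := by linarith
    have e : t ^ κ = t ^ (-(1 - κ)) * t := by
      rw [← rpow_add_one ht0.ne']
      congr 1
      ring
    rw [e, ← mul_assoc]
    exact mul_le_mul_of_nonneg_right ht.le ht0.le
  have h7 : ∀ᶠ t : ℝ in atTop, D * log t ≤ δ * t := by
    have h' : (fun t : ℝ => D * log t) =o[atTop] fun t : ℝ => id t :=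
      isLittleO_log_id_atTop.const_mul_left D
    filter_upwards [h'.bound hδ, h1] with t ht ht1
    simp only [id] at ht
    rw [norm_eq_abs, norm_eq_abs, abs_of_nonneg (by linarith : (0:ℝ) ≤ t)] at ht
    exact (le_abs_self _).trans ht
  have h8 : ∀ᶠ t : ℝ in atTop, 1 ≤ δ * t := by
    have : Tendsto (fun t : ℝ => δ * t) atTop atTop := tendsto_id.const_mul_atTop hδ
    exact this.eventually_ge_atTop 1
  have h9 : ∀ᶠ t : ℝ in atTop, 2 * (lam * t / log t + 1) ≤ δ * t := by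
    have ha : ∀ᶠ t : ℝ in atTop, 4 * lam / δ ≤ log t := hlog.eventually_ge_atTop _
    have hb : ∀ᶠ t : ℝ in atTop, 2 ≤ (δ / 2) * t := by
      have : Tendsto (fun t : ℝ => (δ / 2) * t) atTop atTop :=
        tendsto_id.const_mul_atTop (by positivity)
      exact this.eventually_ge_atTop 2
    filter_upwards [ha, hb, h1, h2] with t hta htb ht1 ht2
    have hl : 0 < log t := by linarith
    have : lam * t / log t ≤ δ / 4 * t := by
      rw [div_le_iff₀ hl]
      have : lam ≤ δ / 4 * log t := by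
        rw [div_le_iff₀ hδ] at hta
        linarith
      nlinarith
    linarith
  filter_upwards [h1, h2, h3, h4, h5, h6, h7, h8, h9] with t a b c d e f g h i
  exact ⟨a, b, c, d, e, f, g, h, i⟩

lemma asym_neg (A B C D E G lam κ : ℝ) (hlam : 0 < lam) (hκ : κ < 1) (hA : A ≤ 0)
    (hC : 0 ≤ C) (hAB : A + B < 0) (hG : (A + B) * lam + G < 0) :
    ∀ᶠ t : ℝ in atTop, ∀ p : ℕ, lam * t / log t ≤ p → (p : ℝ) ≤ 2 * (lam * t / log t + 1) →
      A * (p * log p) + B * (p * log t) + C * p + D * log t + E * t ^ κ + G * t ≤ -1 := by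
  -- choose δ
  obtain ⟨δ, hδ, hδ1, hδ2⟩ : ∃ δ : ℝ, 0 < δ ∧ A + B + (2 * (-A) + C) * δ < 0 ∧
      (A + B + (2 * (-A) + C) * δ) * lam + G + 3 * δ < 0 := by
    have hc : ContinuousAt (fun δ : ℝ => A + B + (2 * (-A) + C) * δ) 0 := by fun_prop
    have hc2 : ContinuousAt (fun δ : ℝ => (A + B + (2 * (-A) + C) * δ) * lam + G + 3 * δ) 0 := by
      fun_prop
    have e1 : ∀ᶠ δ in nhds (0:ℝ), A + B + (2 * (-A) + C) * δ < 0 :=
      hc.eventually_lt continuousAt_const (by simpa using hAB)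
    have e2 : ∀ᶠ δ in nhds (0:ℝ), (A + B + (2 * (-A) + C) * δ) * lam + G + 3 * δ < 0 :=
      hc2.eventually_lt continuousAt_const (by simpa using hG)
    have e3 := (e1.and e2).filter_mono (nhdsWithin_le_nhds (s := Set.Ioi (0:ℝ)))
    obtain ⟨δ, hδ, hδ0⟩ := (e3.and self_mem_nhdsWithin).exists
    exact ⟨δ, hδ0, hδ.1, hδ.2⟩
  filter_upwards [eventually_facts lam δ κ E D hlam hδ hκ] with t ht p hp1 hp2
  obtain ⟨h1, h2, h3, h4, h5, h6, h7, h8, h9⟩ := ht
  have hs : 0 < log t := by linarith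
  have ht0 : 0 < t := by linarith
  have hq : 0 < lam * t / log t := by positivity
  have hp0 : (0:ℝ) < p := lt_of_lt_of_le hq hp1
  have hlogp : log t - 2 * δ * log t ≤ log p := by
    have : log (lam * t / log t) ≤ log p := log_le_log hq hp1
    rw [log_div (by positivity) (by positivity), log_mul (by positivity) (by positivity)] at this
    linarith
  have hps : lam * t ≤ p * log t := by
    rw [div_le_iff₀ hs] at hp1
    exact hp1
  have hpl : 0 < p * log t := by positivity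
  have e1 : A * (p * log p) ≤ A * (p * (log t - 2 * δ * log t)) :=
    mul_le_mul_of_nonpos_left (mul_le_mul_of_nonneg_left hlogp hp0.le) hA
  have e2 : C * p ≤ C * δ * (p * log t) := by
    have : C * p * 1 ≤ C * p * (δ * log t) := mul_le_mul_of_nonneg_left h4 (by positivity)
    linarith
  have e3 : (A + B + (2 * (-A) + C) * δ) * (p * log t) ≤ (A + B + (2 * (-A) + C) * δ) * (lam * t) :=
    mul_le_mul_of_nonpos_left hps hδ1.le
  have e4 : ((A + B + (2 * (-A) + C) * δ) * lam + G + 3 * δ) * t < 0 :=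
    mul_neg_of_neg_of_pos hδ2 ht0
  nlinarith

lemma asym_pos (A B C D E G lam κ : ℝ) (hlam : 0 < lam) (hκ : κ < 1) (hA : 0 ≤ A) (hB : 0 ≤ B)
    (hC : 0 ≤ C) (hG : 2 * (A + B) * lam + G < 0) :
    ∀ᶠ t : ℝ in atTop, ∀ p : ℕ, lam * t / log t ≤ p → (p : ℝ) ≤ 2 * (lam * t / log t + 1) →
      A * (p * log p) + B * (p * log t) + C * p + D * log t + E * t ^ κ + G * t ≤ -1 := by
  obtain ⟨δ, hδ, hδ0, hδ2⟩ : ∃ δ : ℝ, 0 < δ ∧ δ < 1 ∧ 2 * (A + B) * lam + G + (C + 4) * δ < 0 := by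
    have hc2 : ContinuousAt (fun δ : ℝ => 2 * (A + B) * lam + G + (C + 4) * δ) 0 := by
      fun_prop
    have e2 : ∀ᶠ δ in nhds (0:ℝ), 2 * (A + B) * lam + G + (C + 4) * δ < 0 :=
      hc2.eventually_lt continuousAt_const (by simpa using hG)
    have e1 : ∀ᶠ δ in nhds (0:ℝ), δ < 1 := gt_mem_nhds one_pos
    have e3 := (e1.and e2).filter_mono (nhdsWithin_le_nhds (s := Set.Ioi (0:ℝ)))
    obtain ⟨δ, hδ, hδ0⟩ := (e3.and self_mem_nhdsWithin).exists
    exact ⟨δ, hδ0, hδ.1, hδ.2⟩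
  filter_upwards [eventually_facts lam δ κ E D hlam hδ hκ,
    eventually_facts lam δ κ E (2 * (A + B)) hlam hδ hκ] with t ht ht' p hp1 hp2
  obtain ⟨h1, h2, h3, h4, h5, h6, h7, h8, h9⟩ := ht
  have h7' := ht'.2.2.2.2.2.2.1
  have hs : 0 < log t := by linarith
  have ht0 : 0 < t := by linarith
  have hq : 0 < lam * t / log t := by positivity
  have hp0 : (0:ℝ) < p := lt_of_lt_of_le hq hp1
  have hpt : (p:ℝ) ≤ t := by nlinarith
  have hlogp : log p ≤ log t := log_le_log hp0 hpt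
  have hps : p * log t ≤ 2 * lam * t + 2 * log t := by
    have : (p:ℝ) * log t ≤ 2 * (lam * t / log t + 1) * log t :=
      mul_le_mul_of_nonneg_right hp2 hs.le
    have e : 2 * (lam * t / log t + 1) * log t = 2 * lam * t + 2 * log t := by
      field_simp
    linarith
  have e1 : A * (p * log p) ≤ A * (p * log t) :=
    mul_le_mul_of_nonneg_left (mul_le_mul_of_nonneg_left hlogp hp0.le) hA
  have e2 : C * p ≤ C * (δ * t) := mul_le_mul_of_nonneg_left (hp2.trans h9) hC
  have e3 : (A + B) * (p * log t) ≤ (A + B) * (2 * lam * t + 2 * log t) :=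
    mul_le_mul_of_nonneg_left hps (by positivity)
  have e4 : (2 * (A + B) * lam + G + (C + 4) * δ) * t < 0 :=
    mul_neg_of_neg_of_pos hδ2 ht0
  nlinarith

end Pool.Agent.Helper16
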