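import Mathlib

open PowerSeries

namespace Pool.Agent.Helper16

noncomputable section

/-- The power series expansion of `1/(X+d)`. -/
def G (d : ℝ) : ℝ⟦X⟧ := PowerSeries.mk fun k => (-1) ^ k / d ^ (k + 1)

lemma coeff_G (d : ℝ) (k : ℕ) : coeff k (G d) = (-1) ^ k / d ^ (k + 1) := by
  simp [G]

lemma X_add_C_mul_G {d : ℝ} (hd : d ≠ 0) : ((X : ℝ⟦X⟧) + C d) * G d = 1 := by
  ext k
  rw [add_mul, map_add, coeff_C_mul]
  cases k with
  | zero =>
    simp [coeff_zero_X_mul, coeff_G]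
    field_simp
  | succ k =>
    rw [coeff_succ_X_mul, coeff_G, coeff_G]
    simp [coeff_one]
    field_simp
    ring

/-- Majorant relation. -/
def Maj (f g : ℝ⟦X⟧) : Prop := ∀ k, |coeff k f| ≤ coeff k g

lemma Maj.mul {f g f' g' : ℝ⟦X⟧} (h : Maj f g) (h' : Maj f' g') : Maj (f * f') (g * g') := by
  intro k
  rw [coeff_mul, coeff_mul]
  refine (Finset.abs_sum_le_sum_abs _ _).trans (Finset.sum_le_sum fun a _ => ?_)
  rw [abs_mul]
  exact mul_le_mul (h _) (h' _) (abs_nonneg _) ((abs_nonneg _).trans (h _))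

lemma Maj.one : Maj 1 1 := by
  intro k
  rw [coeff_one]
  split_ifs <;> simp

lemma Maj.pow {f g : ℝ⟦X⟧} (h : Maj f g) (n : ℕ) : Maj (f ^ n) (g ^ n) := by
  induction n with
  | zero => simpa using Maj.one
  | succ n ih => rw [pow_succ, pow_succ]; exact ih.mul h

lemma Maj.prod {ι : Type*} (s : Finset ι) (f g : ι → ℝ⟦X⟧) (h : ∀ i ∈ s, Maj (f i) (g i)) :
    Maj (∏ i ∈ s, f i) (∏ i ∈ s, g i) := by
  classical
  induction s using Finset.induction_on with
  | empty => simpa using Maj.one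
  | insert a s ha ih =>
    rw [Finset.prod_insert ha, Finset.prod_insert ha]
    exact (h a (by simp)).mul (ih fun i hi => h i (by simp [hi]))

lemma maj_G {d : ℝ} (hd : 1 ≤ |d|) : Maj (G d) (PowerSeries.mk 1) := by
  intro k
  rw [coeff_G, coeff_mk, abs_div, abs_pow, abs_neg, abs_one, one_pow, abs_pow]
  simp only [Pi.one_apply]
  rw [div_le_one (by positivity)]
  exact one_le_pow₀ hd

lemma coeff_mk_one_pow_le (S k : ℕ) : coeff k ((PowerSeries.mk 1 : ℝ⟦X⟧) ^ S) ≤ 2 ^ (S + k) := by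
  cases S with
  | zero =>
    simp only [pow_zero, coeff_one]
    split_ifs
    · exact one_le_pow₀ (by norm_num)
    · positivity
  | succ S =>
    rw [PowerSeries.mk_one_pow_eq_mk_choose_add, coeff_mk]
    have h : (S + k).choose S ≤ 2 ^ (S + k) := by
      rw [← Nat.sum_range_choose]
      exact Finset.single_le_sum (f := fun m => (S + k).choose m) (fun _ _ => Nat.zero_le _)
        (Finset.mem_range.mpr (by omega))
    calc (((S + k).choose S : ℕ) : ℝ) ≤ ((2 ^ (S + k) : ℕ) : ℝ) := by exact_mod_cast h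
      _ = 2 ^ (S + k) := by push_cast; rfl
      _ ≤ 2 ^ (S + 1 + k) := pow_le_pow_right₀ (by norm_num) (by omega)

/-- Scaled integrality. -/
def Intg (c V : ℤ) (f : ℝ⟦X⟧) : Prop := ∀ k, ∃ n : ℤ, (c : ℝ) * (V : ℝ) ^ k * coeff k f = n

lemma Intg.one (V : ℤ) : Intg 1 V 1 := by
  intro k
  rw [coeff_one]
  by_cases hk : k = 0
  · exact ⟨1, by simp [hk]⟩
  · exact ⟨0, by simp [hk]⟩

lemma Intg.mul {c c' V : ℤ} {f f' : ℝ⟦X⟧} (h : Intg c V f) (h' : Intg c' V f') :
    Intg (c * c') V (f * f') := by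
  intro k
  choose n hn using h
  choose n' hn' using h'
  refine ⟨∑ a ∈ Finset.HasAntidiagonal.antidiagonal k, n a.1 * n' a.2, ?_⟩
  rw [coeff_mul, Finset.mul_sum]
  push_cast
  refine Finset.sum_congr rfl fun a ha => ?_
  rw [Finset.HasAntidiagonal.mem_antidiagonal] at ha
  rw [← hn, ← hn', ← ha, pow_add]
  ring

lemma Intg.pow {c V : ℤ} {f : ℝ⟦X⟧} (h : Intg c V f) (n : ℕ) : Intg (c ^ n) V (f ^ n) := by
  induction n with
  | zero => simpa using Intg.one V
  | succ n ih => rw [pow_succ, pow_succ]; exact ih.mul h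

lemma Intg.prod {ι : Type*} (s : Finset ι) (c : ι → ℤ) (V : ℤ) (f : ι → ℝ⟦X⟧)
    (h : ∀ i ∈ s, Intg (c i) V (f i)) : Intg (∏ i ∈ s, c i) V (∏ i ∈ s, f i) := by
  classical
  induction s using Finset.induction_on with
  | empty => simpa using Intg.one V
  | insert a s ha ih =>
    rw [Finset.prod_insert ha, Finset.prod_insert ha]
    exact (h a (by simp)).mul (ih fun i hi => h i (by simp [hi]))

lemma intg_G {d V : ℤ} (hd : d ≠ 0) (hV : d ∣ V) : Intg d V (G (d : ℝ)) := by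
  intro k
  obtain ⟨e, rfl⟩ := hV
  refine ⟨(-e) ^ k, ?_⟩
  have hd' : (d : ℝ) ≠ 0 := by exact_mod_cast hd
  rw [coeff_G]
  push_cast
  rw [mul_pow, neg_pow (e : ℝ) k]
  field_simp
  ring

/-! ### The functional -/

variable {ι : Type*} [Fintype ι] [DecidableEq ι]

/-- Product of inverse linear factors at the node `j`. -/
def B (x : ι → ℝ) (L : ι → ℕ) (j : ι) : ℝ⟦X⟧ := ∏ i ∈ Finset.univ.erase j, G (x j - x i) ^ L i

/-- Product of the linear factors belonging to the other nodes. -/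
def Om (x : ι → ℝ) (L : ι → ℕ) (j : ι) : Polynomial ℝ :=
  ∏ i ∈ Finset.univ.erase j, (Polynomial.X - Polynomial.C (x i)) ^ L i

lemma taylor_Om (x : ι → ℝ) (L : ι → ℕ) (j : ι) :
    Polynomial.taylor (x j) (Om x L j) =
      ∏ i ∈ Finset.univ.erase j, (Polynomial.X + Polynomial.C (x j - x i)) ^ L i := by
  have h : ∀ p, Polynomial.taylor (x j) p = Polynomial.taylorEquiv (x j) p := fun p => rfl
  rw [h, Om, map_prod]
  refine Finset.prod_congr rfl fun i _ => ?_
  rw [map_pow, ← h, map_sub, Polynomial.taylor_X, Polynomial.taylor_C, Polynomial.C_sub]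
  ring

lemma taylor_Om_mul_B {x : ι → ℝ} (hx : Function.Injective x) (L : ι → ℕ) (j : ι) :
    ((Polynomial.taylor (x j) (Om x L j) : Polynomial ℝ) : ℝ⟦X⟧) * B x L j = 1 := by
  rw [taylor_Om, B, ← Polynomial.coeToPowerSeries.ringHom_apply, map_prod,
    ← Finset.prod_mul_distrib]
  refine Finset.prod_eq_one fun i hi => ?_
  rw [map_pow, ← mul_pow]
  have : x j - x i ≠ 0 := sub_ne_zero.mpr fun h => (Finset.ne_of_mem_erase hi) (hx h).symm
  rw [map_add, Polynomial.coeToPowerSeries.ringHom_apply, Polynomial.coeToPowerSeries.ringHom_apply,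
    Polynomial.coe_X, Polynomial.coe_C, X_add_C_mul_G this, one_pow]

/-- The divided-difference functional. -/
def Lam (x : ι → ℝ) (L : ι → ℕ) (φ : Polynomial ℝ) : ℝ :=
  ∑ j, coeff (L j - 1) (((Polynomial.taylor (x j) φ : Polynomial ℝ) : ℝ⟦X⟧) * B x L j)

lemma natDegree_Om (x : ι → ℝ) (L : ι → ℕ) (j : ι) :
    (Om x L j).natDegree = ∑ i ∈ Finset.univ.erase j, L i := by
  rw [Om, Polynomial.natDegree_prod_of_monic]
  · refine Finset.sum_congr rfl fun i _ => ?_
    rw [Polynomial.natDegree_pow, Polynomial.natDegree_X_sub_C, mul_one]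
  · intro i _
    exact (Polynomial.monic_X_sub_C _).pow _

lemma monic_Om (x : ι → ℝ) (L : ι → ℕ) (j : ι) : (Om x L j).Monic :=
  Polynomial.monic_prod_of_monic _ _ fun _ _ => (Polynomial.monic_X_sub_C _).pow _

lemma pow_dvd_Om (x : ι → ℝ) (L : ι → ℕ) {i j : ι} (h : i ≠ j) :
    (Polynomial.X - Polynomial.C (x i)) ^ L i ∣ Om x L j :=
  Finset.dvd_prod_of_mem (fun i => (Polynomial.X - Polynomial.C (x i)) ^ L i)
    (Finset.mem_erase.mpr ⟨h, Finset.mem_univ _⟩)

/-- The local remainder at a node. -/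
def rem (x : ι → ℝ) (L : ι → ℕ) (φ : Polynomial ℝ) (j : ι) : Polynomial ℝ :=
  trunc (L j) (((Polynomial.taylor (x j) φ : Polynomial ℝ) : ℝ⟦X⟧) * B x L j)

lemma X_sub_C_pow_dvd_iff (x : ℝ) (n : ℕ) (φ : Polynomial ℝ) :
    (Polynomial.X - Polynomial.C x) ^ n ∣ φ ↔ Polynomial.X ^ n ∣ Polynomial.taylor x φ := by
  have h : ∀ p, Polynomial.taylor x p = Polynomial.taylorEquiv x p := fun p => rfl
  have h2 : Polynomial.X ^ n = Polynomial.taylorEquiv x ((Polynomial.X - Polynomial.C x) ^ n) := by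
    rw [map_pow, map_sub, ← h, ← h, Polynomial.taylor_X, Polynomial.taylor_C]
    simp
  rw [h2, h, map_dvd_iff]

lemma local_dvd {x : ι → ℝ} (hx : Function.Injective x) (L : ι → ℕ) (φ : Polynomial ℝ) (j : ι) :
    (Polynomial.X - Polynomial.C (x j)) ^ L j ∣
      φ - ∑ i, Polynomial.taylor (-(x i)) (rem x L φ i) * Om x L i := by
  have h1 : ∑ i, Polynomial.taylor (-(x i)) (rem x L φ i) * Om x L i =
      Polynomial.taylor (-(x j)) (rem x L φ j) * Om x L j +
      ∑ i ∈ Finset.univ.erase j, Polynomial.taylor (-(x i)) (rem x L φ i) * Om x L i := by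
    rw [← Finset.add_sum_erase _ _ (Finset.mem_univ j)]
  rw [h1, ← sub_sub]
  refine dvd_sub ?_ (Finset.dvd_sum fun i hi => Dvd.dvd.mul_left (pow_dvd_Om x L
    (Finset.ne_of_mem_erase hi).symm) _)
  rw [X_sub_C_pow_dvd_iff, map_sub, Polynomial.taylor_mul, Polynomial.taylor_taylor]
  rw [add_neg_cancel, Polynomial.taylor_zero]
  rw [Polynomial.X_pow_dvd_iff]
  intro d hd
  have key : X ^ L j ∣ (((Polynomial.taylor (x j) φ : Polynomial ℝ) : ℝ⟦X⟧) -
      ((rem x L φ j : Polynomial ℝ) : ℝ⟦X⟧) *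
        ((Polynomial.taylor (x j) (Om x L j) : Polynomial ℝ) : ℝ⟦X⟧)) := by
    have h3 : (X : ℝ⟦X⟧) ^ L j ∣ ((Polynomial.taylor (x j) φ : Polynomial ℝ) : ℝ⟦X⟧) * B x L j -
        ((rem x L φ j : Polynomial ℝ) : ℝ⟦X⟧) := by
      rw [PowerSeries.X_pow_dvd_iff]
      intro m hm
      rw [map_sub, rem, Polynomial.coeff_coe, coeff_trunc, if_pos hm, sub_self]
    have h4 := Dvd.dvd.mul_right h3 ((Polynomial.taylor (x j) (Om x L j) : Polynomial ℝ) : ℝ⟦X⟧)
    have h5 := taylor_Om_mul_B hx L j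
    rw [sub_mul, mul_assoc, mul_comm (B x L j), h5, mul_one] at h4
    exact h4
  rw [PowerSeries.X_pow_dvd_iff] at key
  have := key d hd
  rw [map_sub, ← Polynomial.coe_mul, Polynomial.coeff_coe, Polynomial.coeff_coe] at this
  rw [Polynomial.coeff_sub]
  exact this

lemma natDegree_rem_lt (x : ι → ℝ) (L : ι → ℕ) (hL : ∀ j, 0 < L j) (φ : Polynomial ℝ) (j : ι) :
    (rem x L φ j).natDegree ≤ L j - 1 := by
  have := natDegree_trunc_lt (((Polynomial.taylor (x j) φ : Polynomial ℝ) : ℝ⟦X⟧) * B x L j) (L j - 1)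
  rw [Nat.sub_add_cancel (hL j)] at this
  rw [rem]
  omega

lemma sum_erase_add (L : ι → ℕ) (j : ι) : L j + ∑ i ∈ Finset.univ.erase j, L i = ∑ i, L i :=
  Finset.add_sum_erase _ _ (Finset.mem_univ j)

lemma eq_sum_rem {x : ι → ℝ} (hx : Function.Injective x) (L : ι → ℕ) (hL : ∀ j, 0 < L j)
    (φ : Polynomial ℝ) (hφ : φ.natDegree < ∑ i, L i) :
    φ = ∑ i, Polynomial.taylor (-(x i)) (rem x L φ i) * Om x L i := by
  have hd : (∏ j, (Polynomial.X - Polynomial.C (x j)) ^ L j) ∣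
      φ - ∑ i, Polynomial.taylor (-(x i)) (rem x L φ i) * Om x L i := by
    refine Finset.prod_dvd_of_coprime ?_ fun j _ => local_dvd hx L φ j
    intro i _ j _ hij
    exact IsCoprime.pow (Polynomial.pairwise_coprime_X_sub_C hx hij)
  have hdeg : (∏ j, (Polynomial.X - Polynomial.C (x j)) ^ L j).natDegree = ∑ j, L j := by
    rw [Polynomial.natDegree_prod_of_monic]
    · refine Finset.sum_congr rfl fun i _ => ?_
      rw [Polynomial.natDegree_pow, Polynomial.natDegree_X_sub_C, mul_one]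
    · intro i _
      exact (Polynomial.monic_X_sub_C _).pow _
  have hlt : (φ - ∑ i, Polynomial.taylor (-(x i)) (rem x L φ i) * Om x L i).natDegree <
      ∑ j, L j := by
    refine lt_of_le_of_lt (Polynomial.natDegree_sub_le _ _) (max_lt hφ ?_)
    refine lt_of_le_of_lt (Polynomial.natDegree_sum_le _ _) ?_
    have hpos : 0 < ∑ i, L i := lt_of_le_of_lt (Nat.zero_le _) hφ
    rw [Finset.fold_max_lt]
    refine ⟨hpos, fun j _ => ?_⟩
    simp only [Function.comp]
    refine lt_of_le_of_lt Polynomial.natDegree_mul_le ?_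
    rw [Polynomial.natDegree_taylor, natDegree_Om, ← sum_erase_add L j]
    have := natDegree_rem_lt x L hL φ j
    have := hL j
    omega
  have := Polynomial.eq_zero_of_dvd_of_natDegree_lt hd (by rw [hdeg]; exact hlt)
  exact sub_eq_zero.mp this

lemma Lam_eq_coeff {x : ι → ℝ} (hx : Function.Injective x) (L : ι → ℕ) (hL : ∀ j, 0 < L j)
    (φ : Polynomial ℝ) (hφ : φ.natDegree < ∑ i, L i) :
    Lam x L φ = φ.coeff (∑ i, L i - 1) := by
  conv_rhs => rw [eq_sum_rem hx L hL φ hφ]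
  rw [Polynomial.finsetSum_coeff, Lam]
  refine Finset.sum_congr rfl fun j _ => ?_
  have h1 : ∑ i, L i - 1 = (L j - 1) + ∑ i ∈ Finset.univ.erase j, L i := by
    rw [← sum_erase_add L j]
    have := hL j
    omega
  have h2 := natDegree_rem_lt x L hL φ j
  rw [h1, Polynomial.coeff_mul_add_eq_of_natDegree_le (by rw [Polynomial.natDegree_taylor]; exact h2)
    (natDegree_Om x L j).le]
  have h3 : (Om x L j).coeff (∑ i ∈ Finset.univ.erase j, L i) = 1 := by
    rw [← natDegree_Om x L j]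
    exact monic_Om x L j
  rw [h3, mul_one]
  have h4 : (Polynomial.taylor (-(x j)) (rem x L φ j)).coeff (L j - 1) =
      (rem x L φ j).coeff (L j - 1) := by
    rcases h2.lt_or_eq with h | h
    · rw [Polynomial.coeff_eq_zero_of_natDegree_lt h, Polynomial.coeff_eq_zero_of_natDegree_lt]
      rw [Polynomial.natDegree_taylor]
      exact h
    · rw [← h, Polynomial.coeff_taylor_natDegree]
      rfl
  rw [h4, rem, coeff_trunc, if_pos (by have := hL j; omega)]

lemma Lam_X_pow_eq_zero {x : ι → ℝ} (hx : Function.Injective x) (L : ι → ℕ) (hL : ∀ j, 0 < L j)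
    (k : ℕ) (hk : k < ∑ i, L i - 1) : Lam x L (Polynomial.X ^ k) = 0 := by
  rw [Lam_eq_coeff hx L hL _ (by rw [Polynomial.natDegree_X_pow]; omega), Polynomial.coeff_X_pow,
    if_neg (by omega)]

lemma Lam_X_pow (x : ι → ℝ) (L : ι → ℕ) (k : ℕ) : Lam x L (Polynomial.X ^ k) =
    ∑ j, ∑ a ∈ Finset.HasAntidiagonal.antidiagonal (L j - 1),
      (x j ^ (k - a.1) * (k.choose a.1 : ℝ)) * coeff a.2 (B x L j) := by
  rw [Lam]
  refine Finset.sum_congr rfl fun j _ => ?_
  rw [coeff_mul]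
  refine Finset.sum_congr rfl fun a _ => ?_
  rw [Polynomial.taylor_X_pow, Polynomial.coeff_coe, Polynomial.coeff_X_add_C_pow]

/-- The coefficients of the linear form. -/
def A (x : ι → ℝ) (L : ι → ℕ) (z : ℝ) (j : ι) : ℝ :=
  ∑ a ∈ Finset.HasAntidiagonal.antidiagonal (L j - 1),
    z ^ a.1 / (a.1.factorial : ℝ) * coeff a.2 (B x L j)

lemma hasSum_one (z x : ℝ) (a : ℕ) :
    HasSum (fun k : ℕ => z ^ k / (k.factorial : ℝ) * (x ^ (k - a) * (k.choose a : ℝ)))
      (z ^ a / (a.factorial : ℝ) * Real.exp (x * z)) := by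
  rw [← hasSum_nat_add_iff' a]
  have h0 : ∑ i ∈ Finset.range a, z ^ i / (i.factorial : ℝ) * (x ^ (i - a) * (i.choose a : ℝ)) = 0 := by
    refine Finset.sum_eq_zero fun i hi => ?_
    rw [Nat.choose_eq_zero_of_lt (Finset.mem_range.mp hi)]
    simp
  rw [h0, sub_zero]
  have h1 : HasSum (fun k : ℕ => (x * z) ^ k / (k.factorial : ℝ)) (Real.exp (x * z)) := by
    rw [Real.exp_eq_exp_ℝ]
    exact NormedSpace.expSeries_div_hasSum_exp (x * z)
  have h2 := h1.mul_left (z ^ a / (a.factorial : ℝ))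
  suffices hfun : (fun k : ℕ => z ^ (k + a) / ((k + a).factorial : ℝ) *
      (x ^ (k + a - a) * ((k + a).choose a : ℝ))) =
      fun k : ℕ => z ^ a / (a.factorial : ℝ) * ((x * z) ^ k / (k.factorial : ℝ)) by
    rw [hfun]
    exact h2
  funext k
  have h3 : ((k + a).choose a : ℝ) = ((k + a).factorial : ℝ) / ((k.factorial : ℝ) * (a.factorial : ℝ)) := by
    rw [Nat.add_choose, Nat.cast_div, Nat.cast_mul]
    · exact Nat.factorial_mul_factorial_dvd_factorial_add k a
    · positivity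
  rw [h3, Nat.add_sub_cancel, pow_add, mul_pow]
  have : ((k + a).factorial : ℝ) ≠ 0 := by positivity
  field_simp

lemma hasSum_form (x : ι → ℝ) (L : ι → ℕ) (z : ℝ) :
    HasSum (fun k : ℕ => z ^ k / (k.factorial : ℝ) * Lam x L (Polynomial.X ^ k))
      (∑ j, A x L z j * Real.exp (x j * z)) := by
  have h : ∀ j ∈ (Finset.univ : Finset ι), HasSum (fun k : ℕ =>
      ∑ a ∈ Finset.HasAntidiagonal.antidiagonal (L j - 1),
        z ^ k / (k.factorial : ℝ) * (x j ^ (k - a.1) * (k.choose a.1 : ℝ)) * coeff a.2 (B x L j))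
      (A x L z j * Real.exp (x j * z)) := by
    intro j _
    rw [A, Finset.sum_mul]
    refine hasSum_sum fun a _ => ?_
    have h := (hasSum_one z (x j) a.1).mul_right (coeff a.2 (B x L j))
    have e : z ^ a.1 / (a.1.factorial : ℝ) * coeff a.2 (B x L j) * Real.exp (x j * z) =
      z ^ a.1 / (a.1.factorial : ℝ) * Real.exp (x j * z) * coeff a.2 (B x L j) := by ring
    rw [e]
    exact h
  have h2 := hasSum_sum h
  suffices hfun : (fun k : ℕ => z ^ k / (k.factorial : ℝ) * Lam x L (Polynomial.X ^ k)) =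
      fun k : ℕ => ∑ j, ∑ a ∈ Finset.HasAntidiagonal.antidiagonal (L j - 1),
        z ^ k / (k.factorial : ℝ) * (x j ^ (k - a.1) * (k.choose a.1 : ℝ)) * coeff a.2 (B x L j) by
    rw [hfun]
    exact h2
  funext k
  rw [Lam_X_pow, Finset.mul_sum]
  refine Finset.sum_congr rfl fun j _ => ?_
  rw [Finset.mul_sum]
  refine Finset.sum_congr rfl fun a _ => ?_
  ring

lemma abs_Lam_X_pow_le (x : ι → ℝ) (L : ι → ℕ) {W Bd : ℝ} (hW : 1 ≤ W)
    (hxW : ∀ j, |x j| ≤ W) (hB : ∀ j, ∀ k ≤ L j - 1, |coeff k (B x L j)| ≤ Bd) (k : ℕ) :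
    |Lam x L (Polynomial.X ^ k)| ≤ (Fintype.card ι : ℝ) * (Bd * (2 * W) ^ k) := by
  rw [Lam_X_pow]
  refine (Finset.abs_sum_le_sum_abs _ _).trans ?_
  rw [← nsmul_eq_mul, ← Finset.card_univ, ← Finset.sum_const]
  refine Finset.sum_le_sum fun j _ => ?_
  have hBd : 0 ≤ Bd := (abs_nonneg _).trans (hB j 0 (Nat.zero_le _))
  refine (Finset.abs_sum_le_sum_abs _ _).trans ?_
  have h1 : ∀ a ∈ Finset.HasAntidiagonal.antidiagonal (L j - 1),
      |(x j ^ (k - a.1) * (k.choose a.1 : ℝ)) * coeff a.2 (B x L j)| ≤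
        (W ^ k * Bd) * (k.choose a.1 : ℝ) := by
    intro a ha
    rw [Finset.HasAntidiagonal.mem_antidiagonal] at ha
    rw [abs_mul, abs_mul, abs_pow, Nat.abs_cast]
    have h2 : |x j| ^ (k - a.1) ≤ W ^ k :=
      (pow_le_pow_left₀ (abs_nonneg _) (hxW j) _).trans (pow_le_pow_right₀ hW (Nat.sub_le _ _))
    have h3 := hB j a.2 (by omega)
    calc |x j| ^ (k - a.1) * (k.choose a.1 : ℝ) * |coeff a.2 (B x L j)|
        ≤ W ^ k * (k.choose a.1 : ℝ) * Bd := by
          gcongr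
      _ = _ := by ring
  refine (Finset.sum_le_sum h1).trans ?_
  rw [← Finset.mul_sum, mul_pow]
  have h4 : ∑ a ∈ Finset.HasAntidiagonal.antidiagonal (L j - 1), (k.choose a.1 : ℝ) ≤ 2 ^ k := by
    have h5 : ∑ a ∈ Finset.HasAntidiagonal.antidiagonal (L j - 1), (k.choose a.1 : ℝ) =
        ∑ a ∈ Finset.range (L j - 1 + 1), (k.choose a : ℝ) :=
      Finset.Nat.sum_antidiagonal_eq_sum_range_succ_mk (fun a => (k.choose a.1 : ℝ)) (L j - 1)
    rw [h5]
    have h6 : ∑ a ∈ Finset.range (L j - 1 + 1), k.choose a ≤ 2 ^ k := by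
      rcases le_total (L j - 1 + 1) (k + 1) with h | h
      · rw [← Nat.sum_range_choose]
        exact Finset.sum_le_sum_of_subset (Finset.range_subset_range.mpr h)
      · rw [← Nat.sum_range_choose]
        refine le_of_eq ?_
        symm
        refine Finset.sum_subset (Finset.range_subset_range.mpr h) fun m _ hm => ?_
        exact Nat.choose_eq_zero_of_lt (by simpa using hm)
    exact_mod_cast h6
  calc W ^ k * Bd * ∑ a ∈ Finset.HasAntidiagonal.antidiagonal (L j - 1), (k.choose a.1 : ℝ)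
      ≤ W ^ k * Bd * 2 ^ k := by gcongr
    _ = _ := by ring

lemma tail_le (y : ℝ) (hy : 0 ≤ y) (m : ℕ) (f : ℕ → ℝ) (s c : ℝ) (hc : 0 ≤ c)
    (hf : HasSum f s) (h0 : ∀ k < m, f k = 0) (h1 : ∀ k, |f k| ≤ c * (y ^ k / (k.factorial : ℝ))) :
    |s| ≤ c * (y ^ m / (m.factorial : ℝ) * Real.exp y) := by
  have h2 : HasSum (fun k => f (k + m)) s := by
    have := (hasSum_nat_add_iff' (f := f) m).mpr hf
    rwa [Finset.sum_eq_zero (fun i hi => h0 i (Finset.mem_range.mp hi)), sub_zero] at this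
  have h3 : HasSum (fun k : ℕ => y ^ k / (k.factorial : ℝ)) (Real.exp y) := by
    rw [Real.exp_eq_exp_ℝ]
    exact NormedSpace.expSeries_div_hasSum_exp y
  have h4 := h3.mul_left (c * (y ^ m / (m.factorial : ℝ)))
  have h5 : ∀ k, |f (k + m)| ≤ c * (y ^ m / (m.factorial : ℝ)) * (y ^ k / (k.factorial : ℝ)) := by
    intro k
    refine (h1 _).trans ?_
    rw [mul_assoc]
    refine mul_le_mul_of_nonneg_left ?_ hc
    rw [pow_add, div_mul_div_comm, mul_comm (y ^ k)]
    refine div_le_div_of_nonneg_left (by positivity) (by positivity) ?_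
    have := Nat.le_of_dvd (Nat.factorial_pos _) (Nat.factorial_mul_factorial_dvd_factorial_add m k)
    rw [Nat.add_comm m k] at this
    exact_mod_cast this
  have h6 := h2.norm_le_of_bounded h4 h5
  rw [Real.norm_eq_abs] at h6
  rw [← mul_assoc]
  exact h6

lemma abs_form_le {x : ι → ℝ} (hx : Function.Injective x) (L : ι → ℕ) (hL : ∀ j, 0 < L j)
    {W Bd z : ℝ} (hW : 1 ≤ W) (hz : 0 ≤ z) (hBd : 0 ≤ Bd)
    (hxW : ∀ j, |x j| ≤ W) (hB : ∀ j, ∀ k ≤ L j - 1, |coeff k (B x L j)| ≤ Bd) :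
    |∑ j, A x L z j * Real.exp (x j * z)| ≤ (Fintype.card ι : ℝ) * Bd *
      ((2 * W * z) ^ (∑ i, L i - 1) / ((∑ i, L i - 1).factorial : ℝ) * Real.exp (2 * W * z)) := by
  refine tail_le (2 * W * z) (by positivity) _ _ _ _ (by positivity) (hasSum_form x L z) ?_ ?_
  · intro k hk
    rw [Lam_X_pow_eq_zero hx L hL k hk, mul_zero]
  · intro k
    rw [abs_mul, abs_of_nonneg (by positivity)]
    calc z ^ k / (k.factorial : ℝ) * |Lam x L (Polynomial.X ^ k)|
        ≤ z ^ k / (k.factorial : ℝ) * ((Fintype.card ι : ℝ) * (Bd * (2 * W) ^ k)) := by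
          gcongr
          exact abs_Lam_X_pow_le x L hW hxW hB k
      _ = _ := by rw [mul_pow]; ring

end

end Pool.Agent.Helper16
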