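import Mathlib
import Pool.Agent.Helper16.Core

open PowerSeries

namespace Pool.Agent.Helper16

noncomputable section

variable {ι : Type*} [Fintype ι] [DecidableEq ι]

lemma abs_coeff_B_le (x : ι → ℤ) (hx : Function.Injective x) (L : ι → ℕ) (j : ι) (k : ℕ)
    (hL : 0 < L j) (hk : k ≤ L j - 1) :
    |coeff k (B (fun i => (x i : ℝ)) L j)| ≤ 2 ^ (∑ i, L i) := by
  have h1 : Maj (B (fun i => (x i : ℝ)) L j)
      (∏ i ∈ Finset.univ.erase j, (PowerSeries.mk 1 : ℝ⟦X⟧) ^ L i) := by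
    refine Maj.prod _ _ _ fun i hi => Maj.pow (maj_G ?_) _
    have h2 : x j - x i ≠ 0 := sub_ne_zero.mpr fun h => (Finset.ne_of_mem_erase hi) (hx h).symm
    have h3 : (1 : ℤ) ≤ |x j - x i| := Int.one_le_abs h2
    calc (1 : ℝ) ≤ ((|x j - x i| : ℤ) : ℝ) := by exact_mod_cast h3
      _ = |(x j : ℝ) - (x i : ℝ)| := by push_cast; rfl
  rw [Finset.prod_pow_eq_pow_sum] at h1
  refine (h1 k).trans ((coeff_mk_one_pow_le _ _).trans ?_)
  refine pow_le_pow_right₀ (by norm_num) ?_
  rw [← sum_erase_add L j]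
  omega

lemma intg_B (x : ι → ℤ) (hx : Function.Injective x) (L : ι → ℕ) (j : ι) (V : ℤ)
    (hV : ∏ i ∈ Finset.univ.erase j, (x j - x i) ∣ V) :
    Intg (∏ i ∈ Finset.univ.erase j, (x j - x i) ^ L i) V (B (fun i => (x i : ℝ)) L j) := by
  refine Intg.prod _ _ _ _ fun i hi => Intg.pow ?_ _
  have h2 : x j - x i ≠ 0 := sub_ne_zero.mpr fun h => (Finset.ne_of_mem_erase hi) (hx h).symm
  have := intg_G (V := V) h2 ((Finset.dvd_prod_of_mem (fun i => x j - x i) hi).trans hV)
  push_cast at this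
  exact this

/-- Integrality with exponent `2p+1`. -/
lemma exists_int (x : ι → ℤ) (hx : Function.Injective x) (L : ι → ℕ) (p : ℕ)
    (hLp : ∀ j, L j ≤ p + 1) (j : ι) (V : ℤ)
    (hV : ∏ i ∈ Finset.univ.erase j, (x j - x i) ∣ V) (k : ℕ) (hk : k ≤ p) :
    ∃ n : ℤ, (V : ℝ) ^ (2 * p + 1) * coeff k (B (fun i => (x i : ℝ)) L j) = n := by
  obtain ⟨n, hn⟩ := intg_B x hx L j V hV k
  have h1 : ∏ i ∈ Finset.univ.erase j, (x j - x i) ^ L i ∣ V ^ (p + 1) := by
    refine dvd_trans ?_ (pow_dvd_pow_of_dvd hV (p + 1))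
    rw [← Finset.prod_pow]
    exact Finset.prod_dvd_prod_of_dvd _ _ fun i _ => pow_dvd_pow _ (hLp i)
  obtain ⟨e, he⟩ := h1
  refine ⟨V ^ (p - k) * e * n, ?_⟩
  have h2 : (V : ℝ) ^ (2 * p + 1) = (V : ℝ) ^ (p - k) * ((V ^ (p + 1) : ℤ) : ℝ) * (V : ℝ) ^ k := by
    push_cast
    rw [← pow_add, ← pow_add]
    congr 1
    omega
  rw [h2, he]
  push_cast
  rw [← hn]
  push_cast
  ring

lemma coeff_zero_B (x : ι → ℝ) (L : ι → ℕ) (j : ι) :
    coeff 0 (B x L j) * ∏ i ∈ Finset.univ.erase j, (x j - x i) ^ L i =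
      ∏ i ∈ Finset.univ.erase j, ((x j - x i)⁻¹ * (x j - x i)) ^ L i := by
  have : coeff 0 (B x L j) = ∏ i ∈ Finset.univ.erase j, ((x j - x i)⁻¹) ^ L i := by
    rw [B, coeff_zero_eq_constantCoeff, map_prod]
    refine Finset.prod_congr rfl fun i _ => ?_
    rw [map_pow, ← coeff_zero_eq_constantCoeff_apply, coeff_G]
    simp
  rw [this, ← Finset.prod_mul_distrib]
  refine Finset.prod_congr rfl fun i _ => ?_
  rw [mul_pow]

/-- Nonvanishing: the integer multiple of the form at integers `b j` is a nonzero integer. -/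
lemma form_ne_zero (x : ι → ℤ) (hx : Function.Injective x) (z : ℕ) (b : ι → ℤ) (p : ℕ)
    (hp : p.Prime) (V : ℤ) (hV : ∀ j, ∏ i ∈ Finset.univ.erase j, (x j - x i) ∣ V)
    (hpV : ¬ (p : ℤ) ∣ V) (hpz : ¬ p ∣ z) (js : ι) (hbj : ¬ (p : ℤ) ∣ b js) :
    1 ≤ |(p.factorial : ℝ) * (V : ℝ) ^ (2 * p + 1) *
      ∑ j, A (fun i => (x i : ℝ)) (fun j => if j = js then p + 1 else p) z j * b j| := by
  set L : ι → ℕ := fun j => if j = js then p + 1 else p with hLdef
  have hLp : ∀ j, L j ≤ p + 1 := by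
    intro j
    simp only [hLdef]
    split_ifs <;> omega
  have hLp' : ∀ j, L j - 1 ≤ p := fun j => by have := hLp j; omega
  -- integers
  have hint : ∀ j, ∀ k, k ≤ p → ∃ n : ℤ,
      (V : ℝ) ^ (2 * p + 1) * coeff k (B (fun i => (x i : ℝ)) L j) = n :=
    fun j k hk => exists_int x hx L p hLp j V (hV j) k hk
  choose! w hw using hint
  have hdesc : ∀ a, a ≤ p → (p.factorial : ℝ) = (a.factorial : ℝ) * (p.descFactorial (p - a) : ℝ) := by
    intro a ha
    have := Nat.factorial_mul_descFactorial (Nat.sub_le p a)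
    rw [Nat.sub_sub_self ha] at this
    exact_mod_cast this.symm
  have hterm : ∀ j, (p.factorial : ℝ) * (V : ℝ) ^ (2 * p + 1) * (A (fun i => (x i : ℝ)) L z j * b j) =
      ((∑ a ∈ Finset.HasAntidiagonal.antidiagonal (L j - 1),
        (p.descFactorial (p - a.1) : ℤ) * (z : ℤ) ^ a.1 * w j a.2 * b j : ℤ) : ℝ) := by
    intro j
    rw [A, Finset.sum_mul, Finset.mul_sum]
    push_cast
    refine Finset.sum_congr rfl fun a ha => ?_
    rw [Finset.HasAntidiagonal.mem_antidiagonal] at ha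
    have ha1 : a.1 ≤ p := by have := hLp' j; omega
    have ha2 : a.2 ≤ p := by have := hLp' j; omega
    rw [← hw j a.2 ha2, hdesc a.1 ha1]
    have : ((a.1.factorial : ℕ) : ℝ) ≠ 0 := by positivity
    field_simp
  have hdvd : ∀ a, a < p → (p : ℤ) ∣ (p.descFactorial (p - a) : ℤ) := by
    intro a ha
    obtain ⟨q, hq⟩ : ∃ q, p = q + 1 := ⟨p - 1, by have := hp.pos; omega⟩
    have h1 : p - a = (q - a) + 1 := by omega
    rw [h1]
    have h2 : (q + 1).descFactorial ((q - a) + 1) = (q + 1) * q.descFactorial (q - a) :=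
      Nat.succ_descFactorial_succ _ _
    rw [show p.descFactorial (q - a + 1) = p * q.descFactorial (q - a) by rw [hq] at *; exact h2]
    push_cast
    exact dvd_mul_right _ _
  set I : ℤ := ∑ j, ∑ a ∈ Finset.HasAntidiagonal.antidiagonal (L j - 1),
        (p.descFactorial (p - a.1) : ℤ) * (z : ℤ) ^ a.1 * w j a.2 * b j with hI
  have hsum : (p.factorial : ℝ) * (V : ℝ) ^ (2 * p + 1) * ∑ j, A (fun i => (x i : ℝ)) L z j * b j =
      (I : ℝ) := by
    rw [Finset.mul_sum, hI]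
    push_cast
    refine Finset.sum_congr rfl fun j _ => ?_
    rw [hterm j]
    push_cast
    rfl
  rw [hsum]
  suffices h : I ≠ 0 by
    have := Int.one_le_abs h
    exact_mod_cast this
  intro hI0
  -- reduce modulo p
  have hmod : (p : ℤ) ∣ I - (z : ℤ) ^ p * w js 0 * b js := by
    rw [hI, ← Finset.add_sum_erase _ _ (Finset.mem_univ js), add_sub_right_comm]
    refine dvd_add ?_ (Finset.dvd_sum fun j hj => Finset.dvd_sum fun a ha => ?_)
    · have hLj : L js - 1 = p := by simp [hLdef]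
      rw [hLj, ← Finset.add_sum_erase _ _ (show (p, 0) ∈ Finset.HasAntidiagonal.antidiagonal p by
        rw [Finset.HasAntidiagonal.mem_antidiagonal]; rfl)]
      have h0 : (p.descFactorial (p - (p, 0).1) : ℤ) * (z : ℤ) ^ (p, 0).1 * w js (p, 0).2 * b js -
          (z : ℤ) ^ p * w js 0 * b js = 0 := by
        simp
      rw [add_sub_right_comm, h0, zero_add]
      refine Finset.dvd_sum fun a ha => ?_
      rw [Finset.mem_erase, Finset.HasAntidiagonal.mem_antidiagonal] at ha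
      have ha1 : a.1 < p := by
        rcases Nat.lt_or_ge a.1 p with h | h
        · exact h
        · exfalso
          apply ha.1
          ext <;> simp <;> omega
      rw [mul_assoc, mul_assoc]
      exact Dvd.dvd.mul_right (hdvd _ ha1) _
    · rw [Finset.HasAntidiagonal.mem_antidiagonal] at ha
      have hLj : L j = p := by simp [hLdef, Finset.ne_of_mem_erase hj]
      have hpp := hp.pos
      have ha1 : a.1 < p := by omega
      rw [mul_assoc, mul_assoc]
      exact Dvd.dvd.mul_right (hdvd _ ha1) _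
  rw [hI0, zero_sub, dvd_neg] at hmod
  have hpZ : Prime (p : ℤ) := Nat.prime_iff_prime_int.mp hp
  rcases hpZ.dvd_or_dvd hmod with h | h
  · rcases hpZ.dvd_or_dvd h with h | h
    · have := hpZ.dvd_of_dvd_pow h
      exact hpz (by exact_mod_cast this)
    · -- p divides w js 0, hence V
      have h1 := hw js 0 (Nat.zero_le _)
      have h2 := coeff_zero_B (fun i => (x i : ℝ)) L js
      have h3 : ∏ i ∈ Finset.univ.erase js, (((x js : ℝ) - x i)⁻¹ * ((x js : ℝ) - x i)) ^ L i = 1 := by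
        refine Finset.prod_eq_one fun i hi => ?_
        have h4 : (x js : ℝ) - x i ≠ 0 := by
          intro h5
          have : (x js : ℝ) = x i := sub_eq_zero.mp h5
          exact (Finset.ne_of_mem_erase hi) (hx (by exact_mod_cast this)).symm
        rw [inv_mul_cancel₀ h4, one_pow]
      rw [h3] at h2
      have h5 : V ^ (2 * p + 1) = w js 0 * ∏ i ∈ Finset.univ.erase js, (x js - x i) ^ L i := by
        have : ((V ^ (2 * p + 1) : ℤ) : ℝ) =
            ((w js 0 * ∏ i ∈ Finset.univ.erase js, (x js - x i) ^ L i : ℤ) : ℝ) := by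
          push_cast
          rw [← h1, mul_assoc, h2, mul_one]
        exact_mod_cast this
      have h6 : (p : ℤ) ∣ V ^ (2 * p + 1) := by
        rw [h5]
        exact Dvd.dvd.mul_right h _
      exact hpV (hpZ.dvd_of_dvd_pow h6)
  · exact hbj h

lemma abs_A_le (x : ι → ℤ) (hx : Function.Injective x) (L : ι → ℕ) (p z : ℕ) (hz : 1 ≤ z) (j : ι)
    (hL : 0 < L j) (hLp : L j ≤ p + 1) :
    |A (fun i => (x i : ℝ)) L z j| ≤ 2 ^ (∑ i, L i) * (Real.exp 1 * (z : ℝ) ^ p) := by
  rw [A]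
  refine (Finset.abs_sum_le_sum_abs _ _).trans ?_
  have hz' : (1 : ℝ) ≤ z := by exact_mod_cast hz
  have h1 : ∀ a ∈ Finset.HasAntidiagonal.antidiagonal (L j - 1),
      |(z : ℝ) ^ a.1 / (a.1.factorial : ℝ) * coeff a.2 (B (fun i => (x i : ℝ)) L j)| ≤
        2 ^ (∑ i, L i) * (z : ℝ) ^ p * (1 / (a.1.factorial : ℝ)) := by
    intro a ha
    rw [Finset.HasAntidiagonal.mem_antidiagonal] at ha
    rw [abs_mul, abs_of_nonneg (by positivity)]
    have h2 : (z : ℝ) ^ a.1 ≤ (z : ℝ) ^ p := pow_le_pow_right₀ hz' (by omega)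
    have h3 := abs_coeff_B_le x hx L j a.2 hL (by omega)
    calc (z : ℝ) ^ a.1 / (a.1.factorial : ℝ) * |coeff a.2 (B (fun i => (x i : ℝ)) L j)|
        ≤ (z : ℝ) ^ p / (a.1.factorial : ℝ) * 2 ^ (∑ i, L i) := by gcongr
      _ = _ := by ring
  refine (Finset.sum_le_sum h1).trans ?_
  rw [← Finset.mul_sum, mul_assoc, mul_comm (Real.exp 1)]
  refine mul_le_mul_of_nonneg_left ?_ (by positivity)
  refine mul_le_mul_of_nonneg_left ?_ (by positivity)
  have h4 : ∑ a ∈ Finset.HasAntidiagonal.antidiagonal (L j - 1), (1 / (a.1.factorial : ℝ)) =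
      ∑ a ∈ Finset.range (L j - 1 + 1), (1 / (a.factorial : ℝ)) :=
    Finset.Nat.sum_antidiagonal_eq_sum_range_succ_mk (fun a => (1 / (a.1.factorial : ℝ))) (L j - 1)
  rw [h4]
  have h5 := Real.sum_le_exp_of_nonneg (x := 1) (by norm_num) (L j - 1 + 1)
  simpa using h5

/-- The general lemma. -/
theorem general_lemma (x : ι → ℤ) (hx : Function.Injective x) {W T η : ℝ} (hW : 1 ≤ W)
    (hxW : ∀ j, |(x j : ℝ)| ≤ W) (hT : 0 ≤ T) (z : ℕ) (hz : 1 ≤ z) (b : ι → ℤ)
    (hb : ∀ j, |(b j : ℝ) - T * Real.exp (x j * z)| ≤ η) (p : ℕ)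
    (hp : p.Prime) (V : ℤ) (hV : ∀ j, ∏ i ∈ Finset.univ.erase j, (x j - x i) ∣ V)
    (hpV : ¬ (p : ℤ) ∣ V) (hpz : ¬ p ∣ z) (js : ι) (hbj : ¬ (p : ℤ) ∣ b js) :
    1 ≤ (p.factorial : ℝ) * |(V : ℝ)| ^ (2 * p + 1) *
      ((Fintype.card ι : ℝ) * 2 ^ (Fintype.card ι * p + 1) *
        ((2 * W * z) ^ (Fintype.card ι * p) / ((Fintype.card ι * p).factorial : ℝ) *
          Real.exp (2 * W * z)) * T +
       (Fintype.card ι : ℝ) * (2 ^ (Fintype.card ι * p + 1) * (Real.exp 1 * (z : ℝ) ^ p)) * η) := by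
  set L : ι → ℕ := fun j => if j = js then p + 1 else p with hLdef
  have hpp := hp.pos
  have hL : ∀ j, 0 < L j := by
    intro j
    simp only [hLdef]
    split_ifs <;> omega
  have hLp : ∀ j, L j ≤ p + 1 := by
    intro j
    simp only [hLdef]
    split_ifs <;> omega
  have hM : ∑ i, L i = Fintype.card ι * p + 1 := by
    have : ∀ i, L i = p + if i = js then 1 else 0 := by
      intro i
      simp only [hLdef]
      split_ifs <;> rfl
    simp only [this, Finset.sum_add_distrib, Finset.sum_ite_eq', Finset.mem_univ, if_true]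
    simp
  have h1 := form_ne_zero x hx z b p hp V hV hpV hpz js hbj
  refine h1.trans ?_
  rw [abs_mul, abs_mul, abs_pow, Nat.abs_cast]
  refine mul_le_mul_of_nonneg_left ?_ (by positivity)
  have hxr : Function.Injective fun i => (x i : ℝ) := by
    intro i j h
    have h' : (x i : ℝ) = (x j : ℝ) := h
    exact hx (by exact_mod_cast h')
  have h2 : ∑ j, A (fun i => (x i : ℝ)) L z j * (b j : ℝ) =
      T * ∑ j, A (fun i => (x i : ℝ)) L z j * Real.exp (x j * z) +
      ∑ j, A (fun i => (x i : ℝ)) L z j * ((b j : ℝ) - T * Real.exp (x j * z)) := by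
    rw [Finset.mul_sum, ← Finset.sum_add_distrib]
    refine Finset.sum_congr rfl fun j _ => ?_
    ring
  rw [h2]
  refine (abs_add_le _ _).trans (add_le_add ?_ ?_)
  · rw [abs_mul, abs_of_nonneg hT, mul_comm T]
    refine mul_le_mul_of_nonneg_right ?_ hT
    have h3 := abs_form_le hxr L hL (W := W) (Bd := 2 ^ (∑ i, L i)) (z := z) hW (by positivity)
      (by positivity) hxW (fun j k hk => abs_coeff_B_le x hx L j k (hL j) hk)
    rw [hM] at h3
    exact h3
  · refine (Finset.abs_sum_le_sum_abs _ _).trans ?_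
    rw [mul_assoc, ← nsmul_eq_mul, ← Finset.card_univ, ← Finset.sum_const]
    refine Finset.sum_le_sum fun j _ => ?_
    rw [abs_mul]
    have h4 := abs_A_le x hx L p z hz j (hL j) (hLp j)
    rw [hM] at h4
    rw [Finset.card_univ]
    exact mul_le_mul h4 (hb j) (abs_nonneg _) (by positivity)

end

end Pool.Agent.Helper16
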