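import Mathlib
import Pool.Agent.Helper16.GL
import Pool.Agent.Helper16.Asym

open Real Filter

namespace Pool.Agent.Helper16

lemma factorial_le_exp (p : ℕ) (hp : 0 < p) : (p.factorial : ℝ) ≤ exp (p * log p) := by
  have h1 : (p.factorial : ℝ) ≤ (p : ℝ) ^ p := by exact_mod_cast Nat.factorial_le_pow p
  have h2 : (p : ℝ) ^ p = exp (p * log p) := by
    rw [mul_comm, ← rpow_def_of_pos (by exact_mod_cast hp), rpow_natCast]
  rw [← h2]
  exact h1

lemma inv_factorial_le_exp (m : ℕ) (hm : 0 < m) :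
    1 / (m.factorial : ℝ) ≤ exp (-(m * log m) + m) := by
  have h1 := pow_div_factorial_le_exp (m : ℝ) (by positivity) m
  have h2 : (m : ℝ) ^ m = exp (m * log m) := by
    rw [mul_comm, ← rpow_def_of_pos (by exact_mod_cast hm), rpow_natCast]
  rw [h2, div_le_iff₀ (by positivity)] at h1
  rw [exp_add, exp_neg, div_le_iff₀ (by positivity)]
  have h3 : 0 < exp (m * log m) := exp_pos _
  calc (1 : ℝ) = (exp (m * log m))⁻¹ * exp (m * log m) := by rw [inv_mul_cancel₀ h3.ne']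
    _ ≤ (exp (m * log m))⁻¹ * (exp m * (m.factorial : ℝ)) := by gcongr
    _ = _ := by ring

lemma pow_eq_exp {a : ℝ} (ha : 0 < a) (n : ℕ) : a ^ n = exp (n * log a) := by
  rw [mul_comm, ← rpow_def_of_pos ha, rpow_natCast]

lemma eventually_rpow_lt (lam κ : ℝ) (hlam : 0 < lam) (hκ : κ < 1) :
    ∀ᶠ t : ℝ in atTop, t ^ κ < lam * t / log t := by
  have h := (isLittleO_log_rpow_atTop (r := 1 - κ) (by linarith)).bound (c := lam / 2) (by positivity)
  filter_upwards [h, eventually_ge_atTop 1, tendsto_log_atTop.eventually_ge_atTop 1] with t ht ht1 hl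
  have ht0 : 0 < t := by linarith
  rw [norm_eq_abs, norm_eq_abs, abs_of_nonneg (by linarith), abs_of_nonneg (by positivity)] at ht
  rw [lt_div_iff₀ (by linarith)]
  have e : t ^ κ * t ^ (1 - κ) = t := by
    rw [← rpow_add ht0]
    simp
  calc t ^ κ * log t ≤ t ^ κ * (lam / 2 * t ^ (1 - κ)) := by gcongr
    _ = lam / 2 * (t ^ κ * t ^ (1 - κ)) := by ring
    _ = lam / 2 * t := by rw [e]
    _ < lam * t := by nlinarith

/-- Vandermonde product. -/
def vdm {N : ℕ} (x : Fin N → ℤ) : ℤ := ∏ i, ∏ k ∈ Finset.Ioi i, (x k - x i)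

lemma dvd_vdm {N : ℕ} (x : Fin N → ℤ) (j : Fin N) :
    ∏ i ∈ Finset.univ.erase j, (x j - x i) ∣ vdm x := by
  have h1 : (Finset.univ.erase j : Finset (Fin N)) = Finset.Iio j ∪ Finset.Ioi j := by
    ext i
    simp only [Finset.mem_erase, Finset.mem_univ, and_true, Finset.mem_union, Finset.mem_Iio,
      Finset.mem_Ioi]
    exact lt_or_lt_iff_ne.symm
  have hdisj : Disjoint (Finset.Iio j) (Finset.Ioi j) := by
    rw [Finset.disjoint_left]
    intro a ha hb
    rw [Finset.mem_Iio] at ha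
    rw [Finset.mem_Ioi] at hb
    exact absurd (ha.trans hb) (lt_irrefl _)
  rw [h1, Finset.prod_union hdisj, vdm, ← Finset.mul_prod_erase _ _ (Finset.mem_univ j), mul_comm]
  refine mul_dvd_mul ?_ ?_
  · have : ∀ i ∈ Finset.Ioi j, x j - x i = -1 * (x i - x j) := fun i _ => by ring
    rw [Finset.prod_congr rfl this, Finset.prod_mul_distrib]
    rw [Finset.prod_const]
    rcases neg_one_pow_eq_or ℤ (Finset.Ioi j).card with h | h
    · rw [h, one_mul]
    · rw [h, neg_one_mul, neg_dvd]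
  · rw [h1]
    refine dvd_trans ?_ (Finset.prod_dvd_prod_of_subset _ _ _ Finset.subset_union_left)
    refine Finset.prod_dvd_prod_of_dvd _ _ fun i hi => ?_
    rw [Finset.mem_Iio] at hi
    exact Finset.dvd_prod_of_mem (fun k => x k - x i) (Finset.mem_Ioi.mpr hi)

/-- Number of pairs. -/
def npairs (N : ℕ) : ℕ := ∑ i : Fin N, (Finset.Ioi i).card

lemma two_npairs (K : ℕ) : 2 * npairs (K + 1) = (K + 1) * K := by
  rw [npairs]
  simp only [Fin.card_Ioi]
  rw [Fin.sum_univ_eq_sum_range (fun i => K + 1 - 1 - i) (K + 1), mul_comm,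
    Finset.sum_range_reflect (fun i => i) (K + 1), Finset.sum_range_id_mul_two]
  simp

lemma abs_vdm_le {N : ℕ} (x : Fin N → ℤ) {Y : ℝ} (hY : ∀ i j, |(x i : ℝ) - x j| ≤ Y) :
    |(vdm x : ℝ)| ≤ Y ^ npairs N := by
  rw [vdm, npairs]
  push_cast
  rw [Finset.abs_prod, ← Finset.prod_pow_eq_pow_sum]
  refine Finset.prod_le_prod (fun _ _ => abs_nonneg _) fun i _ => ?_
  rw [Finset.abs_prod, ← Finset.prod_const]
  exact Finset.prod_le_prod (fun _ _ => abs_nonneg _) fun j _ => hY _ _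

lemma not_dvd_vdm {N : ℕ} (x : Fin N → ℤ) (hx : Function.Injective x) {Y : ℝ}
    (hY : ∀ i j, |(x i : ℝ) - x j| ≤ Y) (p : ℕ) (hp : p.Prime) (hpY : Y < p) :
    ¬ (p : ℤ) ∣ vdm x := by
  have hpZ : Prime (p : ℤ) := Nat.prime_iff_prime_int.mp hp
  intro h
  rw [vdm, hpZ.dvd_finsetProd_iff] at h
  obtain ⟨i, _, h⟩ := h
  rw [hpZ.dvd_finsetProd_iff] at h
  obtain ⟨k, hk, h⟩ := h
  rw [Finset.mem_Ioi] at hk
  have hne : x k - x i ≠ 0 := sub_ne_zero.mpr fun h => hk.ne' (hx h)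
  have h1 := Int.le_of_dvd (abs_pos.mpr hne) ((dvd_abs _ _).mpr h)
  have h2 : (p : ℝ) ≤ |(x k : ℝ) - x i| := by exact_mod_cast h1
  linarith [hY k i]

set_option maxHeartbeats 4000000 in
theorem closing (N : ℕ) (hN : 1 ≤ N) (a b c0 κ κz G1 G2 E1 E3 lam : ℝ) (hlam : 0 < lam)
    (hκ : κ < 1) (ha : 0 ≤ a) (hb : 0 ≤ b) (hc0 : 1 ≤ c0) (hκz : 0 ≤ κz)
    (hAB : (1 - N) + (2 * b + N * κ) < 0)
    (h1 : ((1 - N) + (2 * b + N * κ)) * lam + G1 < 0)
    (h2 : 2 * (1 + (2 * b + κz)) * lam + G2 < 0) :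
    ∀ᶠ t : ℝ in atTop, ∀ p : ℕ, lam * t / log t ≤ p → (p : ℝ) ≤ 2 * (lam * t / log t + 1) →
      ∀ Vr Wz T zr η : ℝ, 0 ≤ Vr → Vr ≤ exp (a + b * log t) → 0 ≤ Wz → Wz ≤ c0 * t ^ κ →
        0 ≤ T → T ≤ exp (G1 * t + E1 * t ^ κ) → 0 ≤ zr → zr ≤ t ^ κz → 0 ≤ η → η ≤ exp (G2 * t + E3 * t ^ κ) →
        (p.factorial : ℝ) * Vr ^ (2 * p + 1) *
          ((N : ℝ) * 2 ^ (N * p + 1) * (Wz ^ (N * p) / ((N * p).factorial : ℝ) * exp Wz) * T +
            (N : ℝ) * (2 ^ (N * p + 1) * (exp 1 * zr ^ p)) * η) < 1 := by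
  have hNR : (1 : ℝ) ≤ N := by exact_mod_cast hN
  have hlogN : 0 ≤ log (N : ℝ) := log_nonneg hNR
  have hlog2 : 0 ≤ log (2 : ℝ) := log_nonneg (by norm_num)
  have hlogc : 0 ≤ log c0 := log_nonneg hc0
  have e1 := asym_neg (1 - N) (2 * b + N * κ) (2 * a + N * log 2 + N * log c0 + N)
    (b + a + log N + log 2) (c0 + E1) G1 lam κ hlam hκ (by linarith) (by positivity) hAB h1
  have e2 := asym_pos 1 (2 * b + κz) (2 * a + N * log 2) (b + a + log N + log 2 + 1) E3 G2 lam κ
    hlam hκ (by norm_num) (by positivity) (by positivity) h2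
  filter_upwards [e1, e2, eventually_ge_atTop 1, tendsto_log_atTop.eventually_ge_atTop 1]
    with t he1 he2 ht hl p hp1 hp2 Vr Wz T zr η hV0 hV hW0 hW hT0 hT hz0 hz hη0 hη
  have ht0 : 0 < t := by linarith
  have hl0 : 0 < log t := by linarith
  have hpR : (0 : ℝ) < p := lt_of_lt_of_le (by positivity) hp1
  have hp : 0 < p := by exact_mod_cast hpR
  have he1' := he1 p hp1 hp2
  have he2' := he2 p hp1 hp2
  have hNp : 0 < N * p := Nat.mul_pos (by omega) hp
  -- individual bounds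
  have b1 := factorial_le_exp p hp
  have b2 : Vr ^ (2 * p + 1) ≤ exp ((2 * p + 1) * (a + b * log t)) := by
    calc Vr ^ (2 * p + 1) ≤ (exp (a + b * log t)) ^ (2 * p + 1) := pow_le_pow_left₀ hV0 hV _
      _ = _ := by rw [← exp_nat_mul]; push_cast; ring_nf
  have b3 : (N : ℝ) = exp (log N) := (exp_log (by linarith)).symm
  have b4 : (2 : ℝ) ^ (N * p + 1) = exp ((N * p + 1) * log 2) := by
    rw [pow_eq_exp (by norm_num)]
    push_cast
    rfl
  have b5 : Wz ^ (N * p) ≤ exp (N * p * (log c0 + κ * log t)) := by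
    calc Wz ^ (N * p) ≤ (c0 * t ^ κ) ^ (N * p) := pow_le_pow_left₀ hW0 hW _
      _ = _ := by
        rw [pow_eq_exp (by positivity), log_mul (by positivity) (by positivity), log_rpow ht0]
        push_cast
        rfl
  have b6 := inv_factorial_le_exp (N * p) hNp
  have b6' : 1 / (((N * p).factorial : ℕ) : ℝ) ≤ exp (-(N * p * log p) + N * p) := by
    refine b6.trans (exp_le_exp.mpr ?_)
    push_cast
    have : log p ≤ log ((N : ℝ) * p) := log_le_log hpR (by nlinarith)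
    have h3 : (N : ℝ) * p * log p ≤ N * p * log (N * p) := by gcongr
    linarith
  have b7 : exp Wz ≤ exp (c0 * t ^ κ) := exp_le_exp.mpr hW
  have b8 : zr ^ p ≤ exp (p * (κz * log t)) := by
    calc zr ^ p ≤ (t ^ κz) ^ p := pow_le_pow_left₀ hz0 hz _
      _ = _ := by rw [pow_eq_exp (by positivity), log_rpow ht0]
  have key1 : (p.factorial : ℝ) * Vr ^ (2 * p + 1) *
      ((N : ℝ) * 2 ^ (N * p + 1) * (Wz ^ (N * p) / ((N * p).factorial : ℝ) * exp Wz) * T) ≤
      exp (-1) := by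
    calc (p.factorial : ℝ) * Vr ^ (2 * p + 1) *
        ((N : ℝ) * 2 ^ (N * p + 1) * (Wz ^ (N * p) / ((N * p).factorial : ℝ) * exp Wz) * T)
        = (p.factorial : ℝ) * Vr ^ (2 * p + 1) * (N : ℝ) * 2 ^ (N * p + 1) * Wz ^ (N * p) *
          (1 / ((N * p).factorial : ℝ)) * exp Wz * T := by ring
      _ ≤ exp (p * log p) * exp ((2 * p + 1) * (a + b * log t)) * exp (log N) *
          exp ((N * p + 1) * log 2) * exp (N * p * (log c0 + κ * log t)) *
          exp (-(N * p * log p) + N * p) * exp (c0 * t ^ κ) * exp (G1 * t + E1 * t ^ κ) := by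
          rw [← b3, ← b4]
          gcongr
      _ = exp (p * log p + (2 * p + 1) * (a + b * log t) + log N + (N * p + 1) * log 2 +
          N * p * (log c0 + κ * log t) + (-(N * p * log p) + N * p) + c0 * t ^ κ +
          (G1 * t + E1 * t ^ κ)) := by
          simp only [exp_add]
      _ ≤ exp (-1) := by
          refine exp_le_exp.mpr (le_trans ?_ he1')
          have h3 : (a + log N + log 2) * 1 ≤ (a + log N + log 2) * log t :=
            mul_le_mul_of_nonneg_left hl (by positivity)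
          nlinarith
  have key2 : (p.factorial : ℝ) * Vr ^ (2 * p + 1) *
      ((N : ℝ) * (2 ^ (N * p + 1) * (exp 1 * zr ^ p)) * η) ≤ exp (-1) := by
    calc (p.factorial : ℝ) * Vr ^ (2 * p + 1) *
        ((N : ℝ) * (2 ^ (N * p + 1) * (exp 1 * zr ^ p)) * η)
        = (p.factorial : ℝ) * Vr ^ (2 * p + 1) * (N : ℝ) * 2 ^ (N * p + 1) * exp 1 * zr ^ p *
          η := by ring
      _ ≤ exp (p * log p) * exp ((2 * p + 1) * (a + b * log t)) * exp (log N) *
          exp ((N * p + 1) * log 2) * exp 1 * exp (p * (κz * log t)) *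
          exp (G2 * t + E3 * t ^ κ) := by
          rw [← b3, ← b4]
          gcongr
      _ = exp (p * log p + (2 * p + 1) * (a + b * log t) + log N + (N * p + 1) * log 2 +
          1 + p * (κz * log t) + (G2 * t + E3 * t ^ κ)) := by
          simp only [exp_add]
      _ ≤ exp (-1) := by
          refine exp_le_exp.mpr (le_trans ?_ he2')
          have h3 : (a + log N + log 2 + 1) * 1 ≤ (a + log N + log 2 + 1) * log t :=
            mul_le_mul_of_nonneg_left hl (by positivity)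
          nlinarith
  have hlt : exp (-1 : ℝ) < 1 / 2 := by
    have := exp_one_gt_d9
    rw [exp_neg, inv_eq_one_div]
    exact one_div_lt_one_div_of_lt (by norm_num) (by linarith)
  rw [mul_add]
  linarith

end Pool.Agent.Helper16
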