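import Mathlib
import Pool.Agent.Helper16.WindowA

open Real Filter

namespace Pool.Agent.Helper16

/-- Bertrand's postulate in the form used. -/
lemma exists_prime_window {y : ℝ} (hy : 0 < y) :
    ∃ p : ℕ, p.Prime ∧ y ≤ p ∧ (p : ℝ) ≤ 2 * (y + 1) := by
  have h1 : ⌈y⌉₊ ≠ 0 := by
    have := Nat.ceil_pos.mpr hy
    omega
  obtain ⟨p, hp, hlt, hle⟩ := Nat.exists_prime_lt_and_le_two_mul ⌈y⌉₊ h1
  refine ⟨p, hp, ?_, ?_⟩
  · have : (⌈y⌉₊ : ℝ) ≤ p := by exact_mod_cast hlt.le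
    exact (Nat.le_ceil y).trans this
  · have h2 : (p : ℝ) ≤ 2 * ⌈y⌉₊ := by exact_mod_cast hle
    have h3 := Nat.ceil_lt_add_one hy.le
    linarith

/-- Distance of `exp n` to the nearest integer. -/
noncomputable def dst (n : ℕ) : ℝ := |exp n - round (exp n)|

lemma round_exp_ne_zero (n : ℕ) : round (exp (n : ℝ)) ≠ 0 := by
  have h1 : (1 : ℝ) ≤ exp n := one_le_exp (by positivity)
  have h2 := abs_sub_round (exp (n : ℝ))
  intro h
  rw [h, Int.cast_zero, sub_zero, abs_of_pos (exp_pos _)] at h2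
  linarith

/-- There are at most `K` indices in a window of length `t ^ κ` with `dst n ≤ exp (-ε n)`. -/
theorem window_small (K : ℕ) (κ lam ε : ℝ) (hlam : 0 < lam) (hκ0 : 0 < κ)
    (hκ : κ < 1) (hε : 0 ≤ ε) (hAB : -(K : ℝ) + (K + 1) ^ 2 * κ < 0)
    (h1 : (-(K : ℝ) + (K + 1) ^ 2 * κ) * lam + 1 < 0)
    (h2 : 2 * (1 + K * (K + 1) * κ) * lam - ε < 0) :
    ∃ n0 : ℕ, ∀ t : ℕ, n0 ≤ t → ∀ s : Finset ℕ,
      (∀ n ∈ s, dst n ≤ exp (-(ε * n)) ∧ t ≤ n ∧ (n : ℝ) ≤ t + (t : ℝ) ^ κ) → s.card ≤ K := by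
  have hE2 : (2 * (npairs (K + 1) : ℝ)) = (K + 1) * K := by exact_mod_cast two_npairs K
  have hE3 : 2 * ((npairs (K + 1) : ℝ) * κ) = K * (K + 1) * κ := by
    rw [← mul_assoc, hE2]; ring
  have hE4 : (1 - ((K + 1 : ℕ) : ℝ)) + (2 * (npairs (K + 1) * κ) + ((K + 1 : ℕ) : ℝ) * κ) =
      -(K : ℝ) + (K + 1) ^ 2 * κ := by
    rw [hE3]; push_cast; ring
  have hev := closing (K + 1) (by omega) 0 (npairs (K + 1) * κ) 2 κ 0 1 (-ε) 0 0 lam hlam hκ le_rfl
    (by positivity) (by norm_num) le_rfl (by rw [hE4]; exact hAB) (by rw [hE4]; exact h1)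
    (by rw [hE3, add_zero]; linarith)
  have hev2 := eventually_rpow_lt lam κ hlam hκ
  have hall := (hev.and (hev2.and (eventually_ge_atTop 2)))
  have hnat : ∀ᶠ t : ℕ in atTop, _ := tendsto_natCast_atTop_atTop.eventually hall
  obtain ⟨n0, hn0⟩ := eventually_atTop.mp hnat
  refine ⟨n0, fun t ht s hs => ?_⟩
  obtain ⟨hcl, hlt, ht2⟩ := hn0 t ht
  by_contra hcard
  have hcard : K < s.card := not_le.mp hcard
  have htR : (1 : ℝ) ≤ t := by linarith
  have hlog : 0 < log (t : ℝ) := log_pos (by linarith)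
  obtain ⟨s', hs's, hs'card⟩ := Finset.exists_subset_card_eq (show K + 1 ≤ s.card by omega)
  set nn : Fin (K + 1) → ℕ := fun i => s'.orderEmbOfFin hs'card i with hnn
  have hnnmem : ∀ i, nn i ∈ s := fun i => hs's (Finset.orderEmbOfFin_mem s' hs'card i)
  have hnninj : Function.Injective nn := (s'.orderEmbOfFin hs'card).injective
  set x : Fin (K + 1) → ℤ := fun i => (nn i : ℤ) - t with hx
  have hxinj : Function.Injective x := by
    intro i j h
    apply hnninj
    have : (nn i : ℤ) - t = nn j - t := h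
    omega
  set Y : ℝ := (t : ℝ) ^ κ with hY
  have hY1 : 1 ≤ Y := one_le_rpow htR hκ0.le
  have hxnn : ∀ i, (x i : ℝ) = (nn i : ℝ) - t := fun i => by simp [hx]
  have hx0 : ∀ i, 0 ≤ (x i : ℝ) := by
    intro i
    have := (hs _ (hnnmem i)).2.1
    have : (t : ℝ) ≤ nn i := by exact_mod_cast this
    rw [hxnn]; linarith
  have hxY : ∀ i, (x i : ℝ) ≤ Y := by
    intro i
    have := (hs _ (hnnmem i)).2.2
    rw [hxnn]; linarith
  have hxabs : ∀ i, |(x i : ℝ)| ≤ Y := fun i => by rw [abs_of_nonneg (hx0 i)]; exact hxY i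
  have hdiff : ∀ i j, |(x i : ℝ) - x j| ≤ Y := by
    intro i j
    rw [abs_le]
    constructor <;> linarith [hx0 i, hx0 j, hxY i, hxY j]
  obtain ⟨p, hp, hp1, hp2⟩ := exists_prime_window (y := lam * t / log t) (by positivity)
  -- gcd
  set a : Fin (K + 1) → ℤ := fun i => round (exp (nn i : ℝ)) with ha
  obtain ⟨b, hb, hb1⟩ := Finset.extract_gcd a (Finset.univ_nonempty (α := Fin (K + 1)))
  set g : ℤ := Finset.univ.gcd a with hg
  have hg0 : g ≠ 0 := by
    intro h0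
    have := hb 0 (Finset.mem_univ _)
    rw [h0, zero_mul] at this
    exact round_exp_ne_zero _ this
  have hgpos : 0 < g := by
    have h3 : 0 ≤ g := by
      have : |g| = g := by rw [Int.abs_eq_normalize, hg, Finset.normalize_gcd]
      rw [← this]
      exact abs_nonneg _
    exact lt_of_le_of_ne h3 (Ne.symm hg0)
  have hgR : (1 : ℝ) ≤ g := by exact_mod_cast hgpos
  obtain ⟨js, hjs⟩ : ∃ js, ¬ (p : ℤ) ∣ b js := by
    by_contra hcon
    have hcon' : ∀ js, (p : ℤ) ∣ b js := fun js => by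
      by_contra h; exact hcon ⟨js, h⟩
    have h3 : (p : ℤ) ∣ Finset.univ.gcd b := Finset.dvd_gcd fun i _ => hcon' i
    rw [hb1] at h3
    have := Int.le_of_dvd one_pos h3
    have := hp.two_le
    omega
  have hpY : Y < p := lt_of_lt_of_le hlt hp1
  have hbound : ∀ i, |(b i : ℝ) - exp t / g * exp ((x i : ℝ) * (1 : ℕ))| ≤ exp (-(ε * t)) := by
    intro i
    have h3 : (a i : ℝ) = g * b i := by exact_mod_cast hb i (Finset.mem_univ _)
    have h4 : (b i : ℝ) - exp t / g * exp ((x i : ℝ) * (1 : ℕ)) =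
        -((exp (nn i : ℝ) - a i) / g) := by
      rw [h3, Nat.cast_one, mul_one, hxnn, exp_sub]
      have : exp (t : ℝ) ≠ 0 := (exp_pos _).ne'
      field_simp
      ring
    rw [h4, abs_neg, abs_div, abs_of_pos (by linarith : (0:ℝ) < g)]
    have h5 : |exp (nn i : ℝ) - a i| ≤ exp (-(ε * nn i)) := (hs _ (hnnmem i)).1
    have h6 : exp (-(ε * nn i)) ≤ exp (-(ε * t)) := by
      refine exp_le_exp.mpr ?_
      have : (t : ℝ) ≤ nn i := by exact_mod_cast (hs _ (hnnmem i)).2.1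
      nlinarith
    calc |exp (nn i : ℝ) - a i| / g ≤ |exp (nn i : ℝ) - a i| := div_le_self (abs_nonneg _) hgR
      _ ≤ exp (-(ε * t)) := h5.trans h6
  have hgl := general_lemma x hxinj hY1 hxabs (T := exp t / g) (by positivity) 1 le_rfl b hbound p hp
    (vdm x) (dvd_vdm x) (not_dvd_vdm x hxinj hdiff p hp hpY) (by
      intro h
      have := Nat.le_of_dvd one_pos h
      have := hp.two_le
      omega) js hjs
  rw [Fintype.card_fin] at hgl
  have hV : |(vdm x : ℝ)| ≤ exp (0 + npairs (K + 1) * κ * log t) := by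
    refine (abs_vdm_le x hdiff).trans (le_of_eq ?_)
    rw [pow_eq_exp (by positivity), hY, log_rpow (by linarith), zero_add]
    congr 1
    ring
  have := hcl p hp1 hp2 |(vdm x : ℝ)| (2 * Y * (1 : ℕ)) (exp t / g) ((1 : ℕ) : ℝ) (exp (-(ε * t)))
    (abs_nonneg _) hV (by positivity) (by rw [Nat.cast_one, mul_one]) (by positivity)
    (by
      rw [one_mul, zero_mul, add_zero]
      exact div_le_self (exp_pos _).le hgR)
    (by positivity) (by simp) (exp_pos _).le (by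
      refine exp_le_exp.mpr ?_
      linarith)
  linarith

lemma prod_pow_sub_le {a b α β M η : ℝ} (hM : 0 < M) (ha : |a| ≤ M) (hb : |b| ≤ M) (hα : |α| ≤ M)
    (hβ : |β| ≤ M) (h1 : |a - α| ≤ η) (h2 : |b - β| ≤ η) (r s : ℕ) :
    |a ^ r * b ^ s - α ^ r * β ^ s| ≤ ((r + s : ℕ) : ℝ) * M ^ (r + s - 1) * η := by
  have hη : 0 ≤ η := (abs_nonneg _).trans h1
  have e : a ^ r * b ^ s - α ^ r * β ^ s = a ^ r * (b ^ s - β ^ s) + β ^ s * (a ^ r - α ^ r) := by ring
  have p1 : |a ^ r * (b ^ s - β ^ s)| ≤ s * M ^ (r + s - 1) * η := by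
    rcases Nat.eq_zero_or_pos s with hs | hs
    · subst hs; simp
    · rw [abs_mul, abs_pow]
      have q1 : |a| ^ r ≤ M ^ r := pow_le_pow_left₀ (abs_nonneg _) ha r
      have q2 := abs_pow_sub_pow_le b β s
      have q3 : max |b| |β| ^ (s - 1) ≤ M ^ (s - 1) :=
        pow_le_pow_left₀ (le_max_of_le_left (abs_nonneg _)) (max_le hb hβ) _
      have q4 : r + s - 1 = r + (s - 1) := by omega
      rw [q4, pow_add]
      calc |a| ^ r * |b ^ s - β ^ s| ≤ M ^ r * (|b - β| * s * max |b| |β| ^ (s - 1)) := by gcongr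
        _ ≤ M ^ r * (η * s * M ^ (s - 1)) := by gcongr
        _ = _ := by ring
  have p2 : |β ^ s * (a ^ r - α ^ r)| ≤ r * M ^ (r + s - 1) * η := by
    rcases Nat.eq_zero_or_pos r with hr | hr
    · subst hr; simp
    · rw [abs_mul, abs_pow]
      have q1 : |β| ^ s ≤ M ^ s := pow_le_pow_left₀ (abs_nonneg _) hβ s
      have q2 := abs_pow_sub_pow_le a α r
      have q3 : max |a| |α| ^ (r - 1) ≤ M ^ (r - 1) :=
        pow_le_pow_left₀ (le_max_of_le_left (abs_nonneg _)) (max_le ha hα) _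
      have q4 : r + s - 1 = s + (r - 1) := by omega
      rw [q4, pow_add]
      calc |β| ^ s * |a ^ r - α ^ r| ≤ M ^ s * (|a - α| * r * max |a| |α| ^ (r - 1)) := by gcongr
        _ ≤ M ^ s * (η * r * M ^ (r - 1)) := by gcongr
        _ = _ := by ring
  rw [e]
  refine (abs_add_le _ _).trans ((add_le_add p1 p2).trans (le_of_eq ?_))
  push_cast
  ring

set_option maxHeartbeats 4000000 in
/-- Two indices in a window of length `t ^ κ` cannot both have `dst n ≤ exp (-c n)`. -/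
theorem window_pair (k : ℕ) (hk : 1 ≤ k) (κ lam c : ℝ) (hlam : 0 < lam) (hκ0 : 0 < κ)
    (hκ : κ < 1) (hc : 0 ≤ c) (hAB : -(k : ℝ) + (k + 1) * κ < 0)
    (h1 : (-(k : ℝ) + (k + 1) * κ) * lam + k < 0)
    (h2 : 2 * (1 + κ) * lam + (k - 1 - c) < 0) :
    ∃ n0 : ℕ, ∀ t : ℕ, n0 ≤ t → ∀ s : Finset ℕ,
      (∀ n ∈ s, dst n ≤ exp (-(c * n)) ∧ t ≤ n ∧ (n : ℝ) ≤ t + (t : ℝ) ^ κ) → s.card ≤ 1 := by
  set x : Fin (k + 1) → ℤ := fun j => ((j : ℕ) : ℤ) with hx
  have hxinj : Function.Injective x := by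
    intro i j h
    have : ((i : ℕ) : ℤ) = ((j : ℕ) : ℤ) := h
    exact Fin.ext (by exact_mod_cast this)
  have hkR : (1 : ℝ) ≤ k := by exact_mod_cast hk
  have hx0 : ∀ i, 0 ≤ (x i : ℝ) := fun i => by simp [hx]
  have hxk : ∀ i, (x i : ℝ) ≤ k := fun i => by
    have h3 : (i : ℕ) ≤ k := by omega
    have h4 : ((i : ℕ) : ℝ) ≤ k := by exact_mod_cast h3
    simpa [hx] using h4
  have hxabs : ∀ i, |(x i : ℝ)| ≤ k := fun i => by rw [abs_of_nonneg (hx0 i)]; exact hxk i
  have hdiff : ∀ i j, |(x i : ℝ) - x j| ≤ k := by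
    intro i j
    rw [abs_le]
    constructor <;> linarith [hx0 i, hx0 j, hxk i, hxk j]
  set E3 : ℝ := 2 * (k - 1) + log k with hE3
  have hlogk : 0 ≤ log (k : ℝ) := log_nonneg hkR
  have hev := closing (k + 1) (by omega) (log (|(vdm x : ℝ)| + 1)) 0 (2 * k) κ κ k (k - 1 - c) k E3
    lam hlam hκ (log_nonneg (by linarith [abs_nonneg (vdm x : ℝ)]))
    le_rfl (by linarith) hκ0.le (by push_cast; linarith) (by push_cast; linarith)
    (by linarith)
  have hev2 := eventually_rpow_lt lam κ hlam hκ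
  have hev3 : ∀ᶠ t : ℝ in atTop, (k : ℝ) ≤ t ^ κ := (tendsto_rpow_atTop hκ0).eventually_ge_atTop _
  have hall := (hev.and (hev2.and (hev3.and (eventually_ge_atTop 2))))
  have hnat : ∀ᶠ t : ℕ in atTop, _ := tendsto_natCast_atTop_atTop.eventually hall
  obtain ⟨n0, hn0⟩ := eventually_atTop.mp hnat
  refine ⟨n0, fun t ht s hs => ?_⟩
  obtain ⟨hcl, hlt, hkt, ht2⟩ := hn0 t ht
  by_contra hcard
  have hcard : 1 < s.card := not_le.mp hcard
  obtain ⟨n, hn, n', hn', hne⟩ := Finset.one_lt_card.mp hcard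
  wlog hlt' : n < n' generalizing n n'
  · exact this n' hn' n hn hne.symm (by omega)
  have htR : (1 : ℝ) ≤ t := by linarith
  have hlog : 0 < log (t : ℝ) := log_pos (by linarith)
  have hY1 : 1 ≤ (t : ℝ) ^ κ := one_le_rpow htR hκ0.le
  have hnt : (t : ℝ) ≤ n := by exact_mod_cast (hs n hn).2.1
  have hnt' : (n' : ℝ) ≤ t + (t : ℝ) ^ κ := (hs n' hn').2.2
  have hnn' : (n : ℝ) ≤ n' := by exact_mod_cast hlt'.le
  set m : ℕ := n' - n with hm
  have hmR : (m : ℝ) = n' - n := by rw [hm, Nat.cast_sub hlt'.le]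
  have hm1 : 1 ≤ m := by omega
  have hmY : (m : ℝ) ≤ (t : ℝ) ^ κ := by rw [hmR]; linarith
  obtain ⟨p, hp, hp1, hp2⟩ := exists_prime_window (y := lam * t / log t) (by positivity)
  have hpY : (t : ℝ) ^ κ < p := lt_of_lt_of_le hlt hp1
  -- integers
  set a : ℤ := round (exp (n : ℝ)) with ha
  set b : ℤ := round (exp (n' : ℝ)) with hb
  have ha0 : a ≠ 0 := round_exp_ne_zero n
  have hb0 : b ≠ 0 := round_exp_ne_zero n'
  set d : ℤ := (Int.gcd a b : ℤ) with hd
  have hdpos : 0 < d := by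
    have := Int.gcd_pos_of_ne_zero_left b ha0
    rw [hd]
    exact_mod_cast this
  obtain ⟨a', b', hcop, ha', hb'⟩ := Int.exists_gcd_one (m := a) (n := b) (by
    have := Int.gcd_pos_of_ne_zero_left b ha0
    exact this)
  rw [← hd] at ha' hb'
  have hdR : (1 : ℝ) ≤ d := by exact_mod_cast hdpos
  have hdkR : (1 : ℝ) ≤ (d : ℝ) ^ k := one_le_pow₀ hdR
  -- sizes
  set M : ℝ := exp ((n' : ℝ) + 1) with hM
  have hMpos : 0 < M := exp_pos _
  have hη1 : exp (-(c * n)) ≤ 1 := by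
    rw [exp_le_one_iff]
    have : 0 ≤ c * n := by positivity
    linarith
  have hαM : exp (n : ℝ) + 1 ≤ M := by
    have h3 : exp (n : ℝ) ≤ exp (n' : ℝ) := exp_le_exp.mpr hnn'
    have h4 : (1 : ℝ) ≤ exp (n' : ℝ) := one_le_exp (by positivity)
    rw [hM, exp_add]
    have := exp_one_gt_d9
    nlinarith
  have hβM : exp (n' : ℝ) + 1 ≤ M := by
    have h4 : (1 : ℝ) ≤ exp (n' : ℝ) := one_le_exp (by positivity)
    rw [hM, exp_add]
    have := exp_one_gt_d9
    nlinarith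
  have hda : |exp (n : ℝ) - a| ≤ exp (-(c * n)) := (hs n hn).1
  have hdb : |exp (n' : ℝ) - b| ≤ exp (-(c * n)) := by
    refine (hs n' hn').1.trans (exp_le_exp.mpr ?_)
    nlinarith
  have haM : |(a : ℝ)| ≤ M := by
    have h3 : |(a : ℝ)| ≤ |exp (n : ℝ)| + |exp (n : ℝ) - a| := by
      have := abs_sub_abs_le_abs_sub (a : ℝ) (exp (n : ℝ))
      rw [abs_sub_comm] at this
      linarith
    rw [abs_of_pos (exp_pos _)] at h3
    linarith
  have hbM : |(b : ℝ)| ≤ M := by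
    have h3 : |(b : ℝ)| ≤ |exp (n' : ℝ)| + |exp (n' : ℝ) - b| := by
      have := abs_sub_abs_le_abs_sub (b : ℝ) (exp (n' : ℝ))
      rw [abs_sub_comm] at this
      linarith
    rw [abs_of_pos (exp_pos _)] at h3
    linarith
  have hαM' : |exp (n : ℝ)| ≤ M := by rw [abs_of_pos (exp_pos _)]; linarith
  have hβM' : |exp (n' : ℝ)| ≤ M := by rw [abs_of_pos (exp_pos _)]; linarith
  set bb : Fin (k + 1) → ℤ := fun j => a' ^ (k - j) * b' ^ (j : ℕ) with hbb
  set T : ℝ := exp (k * n) / (d : ℝ) ^ k with hT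
  set η : ℝ := k * M ^ (k - 1) * exp (-(c * n)) with hη
  have hbound : ∀ j, |(bb j : ℝ) - T * exp ((x j : ℝ) * m)| ≤ η := by
    intro j
    have hjk : (j : ℕ) ≤ k := by omega
    have hxj : (x j : ℝ) = ((j : ℕ) : ℝ) := by simp [hx]
    have e1 : (bb j : ℝ) - T * exp ((x j : ℝ) * m) =
        ((a : ℝ) ^ (k - j) * (b : ℝ) ^ (j : ℕ) -
          exp (n : ℝ) ^ (k - j) * exp (n' : ℝ) ^ (j : ℕ)) / (d : ℝ) ^ k := by
      have h3 : (a : ℝ) = d * a' := by rw [ha']; push_cast; ring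
      have h4 : (b : ℝ) = d * b' := by rw [hb']; push_cast; ring
      have h5 : (d : ℝ) ^ k = (d : ℝ) ^ (k - (j : ℕ)) * (d : ℝ) ^ (j : ℕ) := by
        rw [← pow_add]; congr 1; omega
      have h6 : exp (n : ℝ) ^ (k - (j : ℕ)) * exp (n' : ℝ) ^ (j : ℕ) =
          exp (k * n) * exp ((x j : ℝ) * m) := by
        rw [← exp_nat_mul, ← exp_nat_mul, ← exp_add, ← exp_add, hxj, hmR, Nat.cast_sub hjk]
        congr 1
        ring
      have h7 : (d : ℝ) ^ k ≠ 0 := by positivity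
      rw [h6, hT, h3, h4, hbb, mul_pow, mul_pow]
      push_cast
      rw [eq_div_iff h7, sub_mul]
      have h8 : exp (k * n) / (d : ℝ) ^ k * exp ((x j : ℝ) * m) * (d : ℝ) ^ k =
          exp (k * n) * exp ((x j : ℝ) * m) := by field_simp
      rw [h8, h5]
      ring
    rw [e1, abs_div, abs_of_pos (by positivity : (0:ℝ) < (d : ℝ) ^ k)]
    refine (div_le_self (abs_nonneg _) hdkR).trans ?_
    have h9 := prod_pow_sub_le (η := exp (-(c * n))) hMpos haM hbM hαM' hβM'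
      (by rw [abs_sub_comm]; exact hda) (by rw [abs_sub_comm]; exact hdb) (k - (j : ℕ)) (j : ℕ)
    have h10 : k - (j : ℕ) + (j : ℕ) = k := by omega
    rw [h10] at h9
    exact h9
  -- the special index
  have hpk : (k : ℝ) < p := lt_of_le_of_lt hkt hpY
  have hpZ : Prime (p : ℤ) := Nat.prime_iff_prime_int.mp hp
  obtain ⟨js, hjs⟩ : ∃ js, ¬ (p : ℤ) ∣ bb js := by
    by_cases hpa : (p : ℤ) ∣ a'
    · refine ⟨Fin.last k, fun h => ?_⟩
      have h3 : bb (Fin.last k) = b' ^ k := by simp [hbb]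
      rw [h3] at h
      have h4 := hpZ.dvd_of_dvd_pow h
      have h5 : (p : ℤ) ∣ (Int.gcd a' b' : ℤ) := Int.dvd_coe_gcd hpa h4
      rw [hcop] at h5
      have := Int.le_of_dvd one_pos h5
      have := hp.two_le
      omega
    · refine ⟨0, fun h => ?_⟩
      have h3 : bb 0 = a' ^ k := by simp [hbb]
      rw [h3] at h
      exact hpa (hpZ.dvd_of_dvd_pow h)
  have hpm : ¬ p ∣ m := by
    intro h
    have := Nat.le_of_dvd (by omega) h
    have : (p : ℝ) ≤ m := by exact_mod_cast this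
    linarith
  have hTpos : 0 ≤ T := by positivity
  have hgl := general_lemma x hxinj hkR hxabs hTpos m hm1 bb hbound p hp
    (vdm x) (dvd_vdm x) (not_dvd_vdm x hxinj hdiff p hp hpk) hpm js hjs
  rw [Fintype.card_fin] at hgl
  have hη0 : 0 ≤ η := by positivity
  have hnt2 : (n : ℝ) ≤ t + (t : ℝ) ^ κ := hnn'.trans hnt'
  have := hcl p hp1 hp2 |(vdm x : ℝ)| (2 * k * m) T m η
    (abs_nonneg _) (by
      rw [zero_mul, add_zero, exp_log (by positivity)]
      linarith) (by positivity) (by gcongr) hTpos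
    (by
      rw [hT]
      refine (div_le_self (exp_pos _).le hdkR).trans (exp_le_exp.mpr ?_)
      nlinarith)
    (by positivity) hmY hη0 (by
      rw [hη, hM, ← exp_nat_mul]
      have e1 : (k : ℝ) = exp (log k) := (exp_log (by linarith)).symm
      have e2 : ((k - 1 : ℕ) : ℝ) = k - 1 := by rw [Nat.cast_sub hk]; simp
      rw [e2]
      calc (k : ℝ) * exp ((k - 1) * ((n' : ℝ) + 1)) * exp (-(c * n))
          = exp (log k) * exp ((k - 1) * ((n' : ℝ) + 1)) * exp (-(c * n)) := by rw [← e1]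
        _ = exp (log k + (k - 1) * ((n' : ℝ) + 1) + -(c * n)) := by rw [exp_add, exp_add]
        _ ≤ exp ((k - 1 - c) * t + E3 * (t : ℝ) ^ κ) := by
            refine exp_le_exp.mpr ?_
            have i1 : ((k : ℝ) - 1) * ((n' : ℝ) + 1) ≤ (k - 1) * (t + (t : ℝ) ^ κ + (t : ℝ) ^ κ) := by
              refine mul_le_mul_of_nonneg_left ?_ (by linarith)
              linarith
            have i2 : log (k : ℝ) * 1 ≤ log k * (t : ℝ) ^ κ := mul_le_mul_of_nonneg_left hY1 hlogk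
            have i3 : c * t ≤ c * n := mul_le_mul_of_nonneg_left hnt hc
            rw [hE3]
            nlinarith)
  linarith

end Pool.Agent.Helper16
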