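import Mathlib
import Pool.Agent.Helper16.WindowB

open Real Filter

namespace Pool.Agent.Helper16

/-- Products of distinct differences divide a factorial. -/
lemma prod_dvd_factorial {ι : Type*} (s : Finset ι) (f : ι → ℕ) (hf : Set.InjOn f s)
    (m : ℕ) (h1 : ∀ i ∈ s, 1 ≤ f i) (h2 : ∀ i ∈ s, f i ≤ m) : ∏ i ∈ s, f i ∣ m.factorial := by
  classical
  rw [← Finset.prod_Ico_id_eq_factorial, ← Finset.prod_image (s := s) (f := fun i => i) hf]
  refine Finset.prod_dvd_prod_of_subset _ _ _ fun i hi => ?_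
  rw [Finset.mem_image] at hi
  obtain ⟨j, hj, rfl⟩ := hi
  exact Finset.mem_Ico.mpr ⟨h1 j hj, Nat.lt_succ_of_le (h2 j hj)⟩

lemma dvd_factorial_nodes {N : ℕ} (x : Fin N → ℕ) (hx : StrictMono x) (W : ℕ) (hW : ∀ i, x i ≤ W)
    (j : Fin N) : ∏ i ∈ Finset.univ.erase j, ((x j : ℤ) - (x i : ℤ)) ∣ (W.factorial : ℤ) := by
  have h1 : (Finset.univ.erase j : Finset (Fin N)) = Finset.Iio j ∪ Finset.Ioi j := by
    ext i
    simp only [Finset.mem_erase, Finset.mem_univ, and_true, Finset.mem_union, Finset.mem_Iio,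
      Finset.mem_Ioi]
    exact lt_or_lt_iff_ne.symm
  have hdisj : Disjoint (Finset.Iio j) (Finset.Ioi j) := by
    rw [Finset.disjoint_left]
    intro a ha hb
    rw [Finset.mem_Iio] at ha
    rw [Finset.mem_Ioi] at hb
    exact absurd (ha.trans hb) (lt_irrefl _)
  have e1 : ∏ i ∈ Finset.Iio j, ((x j : ℤ) - (x i : ℤ)) = ((∏ i ∈ Finset.Iio j, (x j - x i) : ℕ) : ℤ) := by
    push_cast
    refine Finset.prod_congr rfl fun i hi => ?_
    rw [Nat.cast_sub (hx.monotone (Finset.mem_Iio.mp hi).le)]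
  have e2 : ∏ i ∈ Finset.Ioi j, ((x j : ℤ) - (x i : ℤ)) =
      (-1) ^ (Finset.Ioi j).card * ((∏ i ∈ Finset.Ioi j, (x i - x j) : ℕ) : ℤ) := by
    push_cast
    rw [← Finset.prod_const, ← Finset.prod_mul_distrib]
    refine Finset.prod_congr rfl fun i hi => ?_
    rw [Nat.cast_sub (hx.monotone (Finset.mem_Ioi.mp hi).le)]
    ring
  have d1 : ∏ i ∈ Finset.Iio j, (x j - x i) ∣ (x j).factorial := by
    refine prod_dvd_factorial _ _ ?_ _ ?_ ?_
    · intro a ha b hb hab
      have ha' := hx (Finset.mem_Iio.mp (by simpa using ha) : a < j)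
      have hb' := hx (Finset.mem_Iio.mp (by simpa using hb) : b < j)
      simp only at hab
      exact hx.injective (by omega)
    · intro i hi
      have := hx (Finset.mem_Iio.mp hi)
      omega
    · intro i hi
      omega
  have d2 : ∏ i ∈ Finset.Ioi j, (x i - x j) ∣ (W - x j).factorial := by
    refine prod_dvd_factorial _ _ ?_ _ ?_ ?_
    · intro a ha b hb hab
      have ha' := hx (Finset.mem_Ioi.mp (by simpa using ha) : j < a)
      have hb' := hx (Finset.mem_Ioi.mp (by simpa using hb) : j < b)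
      simp only at hab
      exact hx.injective (by omega)
    · intro i hi
      have := hx (Finset.mem_Ioi.mp hi)
      omega
    · intro i hi
      have := hW i
      omega
  have d3 : (x j).factorial * (W - x j).factorial ∣ W.factorial := by
    have := Nat.factorial_mul_factorial_dvd_factorial (hW j)
    exact this
  have d4 : (∏ i ∈ Finset.Iio j, (x j - x i)) * (∏ i ∈ Finset.Ioi j, (x i - x j)) ∣ W.factorial :=
    (mul_dvd_mul d1 d2).trans d3
  rw [h1, Finset.prod_union hdisj, e1, e2]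
  rcases neg_one_pow_eq_or ℤ (Finset.Ioi j).card with h | h
  · rw [h, one_mul]
    exact_mod_cast d4
  · rw [h, neg_one_mul, mul_neg, neg_dvd]
    exact_mod_cast d4

set_option maxHeartbeats 4000000 in
lemma product_bound (N p : ℕ) (hN : 1 ≤ N) (hp : 0 < p) (Vr Wz T zr η v w τ ζ h : ℝ)
    (hV0 : 0 ≤ Vr) (hV : Vr ≤ exp v) (hW0 : 0 ≤ Wz) (hW : Wz ≤ exp w) (hT0 : 0 ≤ T)
    (hT : T ≤ exp τ) (hz0 : 0 ≤ zr) (hz : zr ≤ exp ζ) (hη0 : 0 ≤ η) (hη : η ≤ exp h) :
    (p.factorial : ℝ) * Vr ^ (2 * p + 1) *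
      ((N : ℝ) * 2 ^ (N * p + 1) * (Wz ^ (N * p) / ((N * p).factorial : ℝ) * exp Wz) * T +
        (N : ℝ) * (2 ^ (N * p + 1) * (exp 1 * zr ^ p)) * η) ≤
    exp (p * log p + (2 * p + 1) * v + log N + (N * p + 1) * log 2 + N * p * w +
      (-(N * p * log (N * p)) + N * p) + Wz + τ) +
    exp (p * log p + (2 * p + 1) * v + log N + (N * p + 1) * log 2 + 1 + p * ζ + h) := by
  have hNR : (1 : ℝ) ≤ N := by exact_mod_cast hN
  have hpR : (0 : ℝ) < p := by exact_mod_cast hp
  have hNp : 0 < N * p := Nat.mul_pos (by omega) hp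
  have b1 := factorial_le_exp p hp
  have b2 : Vr ^ (2 * p + 1) ≤ exp ((2 * p + 1) * v) := by
    calc Vr ^ (2 * p + 1) ≤ (exp v) ^ (2 * p + 1) := pow_le_pow_left₀ hV0 hV _
      _ = _ := by rw [← exp_nat_mul]; push_cast; ring_nf
  have b3 : (N : ℝ) = exp (log N) := (exp_log (by linarith)).symm
  have b4 : (2 : ℝ) ^ (N * p + 1) = exp ((N * p + 1) * log 2) := by
    rw [pow_eq_exp (by norm_num)]
    push_cast
    rfl
  have b5 : Wz ^ (N * p) ≤ exp (N * p * w) := by
    calc Wz ^ (N * p) ≤ (exp w) ^ (N * p) := pow_le_pow_left₀ hW0 hW _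
      _ = _ := by
        rw [← exp_nat_mul]
        push_cast
        rfl
  have b6 := inv_factorial_le_exp (N * p) hNp
  push_cast at b6
  have b8 : zr ^ p ≤ exp (p * ζ) := by
    calc zr ^ p ≤ (exp ζ) ^ p := pow_le_pow_left₀ hz0 hz _
      _ = _ := by rw [← exp_nat_mul]
  rw [mul_add]
  refine add_le_add ?_ ?_
  · calc (p.factorial : ℝ) * Vr ^ (2 * p + 1) *
        ((N : ℝ) * 2 ^ (N * p + 1) * (Wz ^ (N * p) / ((N * p).factorial : ℝ) * exp Wz) * T)
        = (p.factorial : ℝ) * Vr ^ (2 * p + 1) * (N : ℝ) * 2 ^ (N * p + 1) * Wz ^ (N * p) *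
          (1 / ((N * p).factorial : ℝ)) * exp Wz * T := by ring
      _ ≤ exp (p * log p) * exp ((2 * p + 1) * v) * exp (log N) *
          exp ((N * p + 1) * log 2) * exp (N * p * w) *
          exp (-(N * p * log (N * p)) + N * p) * exp Wz * exp τ := by
          rw [← b3, ← b4]
          gcongr
      _ = _ := by simp only [exp_add]
  · calc (p.factorial : ℝ) * Vr ^ (2 * p + 1) *
        ((N : ℝ) * (2 ^ (N * p + 1) * (exp 1 * zr ^ p)) * η)
        = (p.factorial : ℝ) * Vr ^ (2 * p + 1) * (N : ℝ) * 2 ^ (N * p + 1) * exp 1 * zr ^ p *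
          η := by ring
      _ ≤ exp (p * log p) * exp ((2 * p + 1) * v) * exp (log N) *
          exp ((N * p + 1) * log 2) * exp 1 * exp (p * ζ) * exp h := by
          rw [← b3, ← b4]
          gcongr
      _ = _ := by simp only [exp_add]

end Pool.Agent.Helper16
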