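import Mathlib

open Real

namespace Pool.Agent.Helper16

open Classical in
lemma count_block (P : ℕ → Prop) (K : ℕ) (κ : ℝ) (hκ0 : 0 < κ) (hκ1 : κ < 1) (n0 : ℕ)
    (h : ∀ t : ℕ, n0 ≤ t → ∀ s : Finset ℕ,
      (∀ n ∈ s, P n ∧ t ≤ n ∧ (n : ℝ) ≤ t + (t : ℝ) ^ κ) → s.card ≤ K)
    (X : ℕ) (hX : 2 * n0 + 2 ≤ X) :
    (((Finset.Ioc (X / 2) X).filter P).card : ℝ) ≤ 7 * K * (X : ℝ) ^ (1 - κ) := by
  set a := X / 2 with ha
  have ha1 : 1 ≤ a := by omega
  have han0 : n0 ≤ a := by omega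
  have haX : (X : ℝ) / 3 ≤ a := by
    have : X ≤ 3 * a := by omega
    have : (X : ℝ) ≤ 3 * a := by exact_mod_cast this
    linarith
  have haR : (1 : ℝ) ≤ a := by exact_mod_cast ha1
  have hXR : (1 : ℝ) ≤ X := by
    have : 1 ≤ X := by omega
    exact_mod_cast this
  set Y := ⌊(a : ℝ) ^ κ⌋₊ with hY
  have hak : (1 : ℝ) ≤ (a : ℝ) ^ κ := one_le_rpow haR hκ0.le
  have hY1 : 1 ≤ Y := (Nat.one_le_floor_iff _).mpr hak
  have hYle : (Y : ℝ) ≤ (a : ℝ) ^ κ := Nat.floor_le (by positivity)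
  have hYge : (a : ℝ) ^ κ / 2 ≤ Y := by
    have h1 := Nat.lt_floor_add_one ((a : ℝ) ^ κ)
    rw [← hY] at h1
    have h2 : (1 : ℝ) ≤ Y := by exact_mod_cast hY1
    linarith
  have hcard : ((Finset.Ioc a X).filter P).card ≤
      K * (((Finset.Ioc a X).filter P).image (fun n => (n - a) / Y)).card := by
    refine Finset.card_le_mul_card_image _ _ fun q _ => ?_
    refine h (a + q * Y) (by omega) _ fun n hn => ?_
    rw [Finset.mem_filter, Finset.mem_filter, Finset.mem_Ioc] at hn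
    obtain ⟨⟨⟨hn1, hn2⟩, hP⟩, hq⟩ := hn
    have h1 : q * Y ≤ n - a := by rw [← hq]; exact Nat.div_mul_le_self _ _
    have h2 : n - a < (q + 1) * Y := by
      rw [← hq]
      have := Nat.lt_div_mul_add (a := n - a) (b := Y) (by omega)
      calc n - a < (n - a) / Y * Y + Y := this
        _ = _ := by ring
    refine ⟨hP, by omega, ?_⟩
    have h3 : n ≤ (a + q * Y) + Y := by
      have : (q + 1) * Y = q * Y + Y := by ring
      omega
    have h4 : (n : ℝ) ≤ ((a + q * Y : ℕ) : ℝ) + Y := by exact_mod_cast h3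
    refine h4.trans (add_le_add le_rfl (hYle.trans ?_))
    refine rpow_le_rpow (by positivity) ?_ hκ0.le
    have : a ≤ a + q * Y := Nat.le_add_right _ _
    exact_mod_cast this
  have himg : (((Finset.Ioc a X).filter P).image (fun n => (n - a) / Y)).card ≤ X / Y + 1 := by
    have : ((Finset.Ioc a X).filter P).image (fun n => (n - a) / Y) ⊆ Finset.range (X / Y + 1) := by
      intro q hq
      rw [Finset.mem_image] at hq
      obtain ⟨n, hn, rfl⟩ := hq
      rw [Finset.mem_filter, Finset.mem_Ioc] at hn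
      rw [Finset.mem_range, Nat.lt_succ_iff]
      exact Nat.div_le_div_right (by omega)
    exact (Finset.card_le_card this).trans (by rw [Finset.card_range])
  have h5 : (((Finset.Ioc a X).filter P).card : ℝ) ≤ K * ((X : ℝ) / Y + 1) := by
    calc (((Finset.Ioc a X).filter P).card : ℝ) ≤ ((K * (X / Y + 1) : ℕ) : ℝ) := by
          exact_mod_cast hcard.trans (Nat.mul_le_mul_left K himg)
      _ = K * (((X / Y : ℕ) : ℝ) + 1) := by push_cast; ring
      _ ≤ K * ((X : ℝ) / Y + 1) := by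
          gcongr
          exact Nat.cast_div_le
  have h6 : (X : ℝ) ^ κ / 6 ≤ Y := by
    have h7 : (X : ℝ) ^ κ / 3 ≤ ((X : ℝ) / 3) ^ κ := by
      rw [div_rpow (by positivity) (by norm_num)]
      have : (3 : ℝ) ^ κ ≤ 3 := by
        calc (3 : ℝ) ^ κ ≤ (3 : ℝ) ^ (1 : ℝ) := rpow_le_rpow_of_exponent_le (by norm_num) hκ1.le
          _ = 3 := rpow_one 3
      gcongr
    have h8 : ((X : ℝ) / 3) ^ κ ≤ (a : ℝ) ^ κ := rpow_le_rpow (by positivity) haX hκ0.le
    linarith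
  have hXk : 0 < (X : ℝ) ^ κ := by positivity
  have h9 : (X : ℝ) / Y ≤ 6 * (X : ℝ) ^ (1 - κ) := by
    have hYpos : (0 : ℝ) < Y := by
      have : (1 : ℝ) ≤ Y := by exact_mod_cast hY1
      linarith
    rw [div_le_iff₀ hYpos]
    have e : (X : ℝ) = (X : ℝ) ^ (1 - κ) * (X : ℝ) ^ κ := by
      rw [← rpow_add (by linarith)]
      simp
    have : 0 < (X : ℝ) ^ (1 - κ) := by positivity
    calc (X : ℝ) = (X : ℝ) ^ (1 - κ) * (X : ℝ) ^ κ := e
      _ = 6 * (X : ℝ) ^ (1 - κ) * ((X : ℝ) ^ κ / 6) := by ring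
      _ ≤ 6 * (X : ℝ) ^ (1 - κ) * Y := by gcongr
  have h10 : (1 : ℝ) ≤ (X : ℝ) ^ (1 - κ) := one_le_rpow hXR (by linarith)
  calc (((Finset.Ioc a X).filter P).card : ℝ) ≤ K * ((X : ℝ) / Y + 1) := h5
    _ ≤ K * (6 * (X : ℝ) ^ (1 - κ) + (X : ℝ) ^ (1 - κ)) := by gcongr
    _ = _ := by ring

open Classical in
theorem count_bound (P : ℕ → Prop) (K : ℕ) (κ : ℝ) (hκ0 : 0 < κ) (hκ1 : κ < 1) (n0 : ℕ)
    (h : ∀ t : ℕ, n0 ≤ t → ∀ s : Finset ℕ,
      (∀ n ∈ s, P n ∧ t ≤ n ∧ (n : ℝ) ≤ t + (t : ℝ) ^ κ) → s.card ≤ K) :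
    ∃ C : ℝ, 0 < C ∧ ∀ X : ℕ, 1 ≤ X →
      (((Finset.Icc 1 X).filter P).card : ℝ) ≤ C * (X : ℝ) ^ (1 - κ) := by
  have hr : (2 : ℝ)⁻¹ ^ (1 - κ) < 1 := rpow_lt_one (by norm_num) (by norm_num) (by linarith)
  set r : ℝ := (2 : ℝ)⁻¹ ^ (1 - κ) with hrdef
  have hr0 : 0 ≤ r := by positivity
  set C : ℝ := (2 * n0 + 2) + 7 * K / (1 - r) with hC
  have h1r : 0 < 1 - r := by linarith
  have hCpos : 0 < C := by positivity
  refine ⟨C, hCpos, fun X => ?_⟩
  induction X using Nat.strong_induction_on with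
  | _ X ih =>
    intro hX
    have hXR : (1 : ℝ) ≤ X := by exact_mod_cast hX
    have hX1 : (1 : ℝ) ≤ (X : ℝ) ^ (1 - κ) := one_le_rpow hXR (by linarith)
    rcases Nat.lt_or_ge X (2 * n0 + 2) with hlt | hge
    · have h1 : (((Finset.Icc 1 X).filter P).card : ℝ) ≤ X := by
        have : ((Finset.Icc 1 X).filter P).card ≤ X := by
          refine (Finset.card_filter_le _ _).trans ?_
          simp
        exact_mod_cast this
      have h2 : (X : ℝ) ≤ 2 * n0 + 2 := by exact_mod_cast hlt.le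
      have h3 : 0 ≤ 7 * (K : ℝ) / (1 - r) := by positivity
      calc (((Finset.Icc 1 X).filter P).card : ℝ) ≤ X := h1
        _ ≤ C * 1 := by rw [hC]; linarith
        _ ≤ C * (X : ℝ) ^ (1 - κ) := by gcongr
    · have hhalf : 1 ≤ X / 2 := by omega
      have hlt' : X / 2 < X := by omega
      have h1 := ih (X / 2) hlt' hhalf
      have h2 := count_block P K κ hκ0 hκ1 n0 h X hge
      have h3 : ((Finset.Icc 1 X).filter P).card ≤
          ((Finset.Icc 1 (X / 2)).filter P).card + ((Finset.Ioc (X / 2) X).filter P).card := by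
        refine le_trans (Finset.card_le_card ?_) (Finset.card_union_le _ _)
        intro n hn
        rw [Finset.mem_filter, Finset.mem_Icc] at hn
        rw [Finset.mem_union, Finset.mem_filter, Finset.mem_filter, Finset.mem_Icc, Finset.mem_Ioc]
        rcases Nat.lt_or_ge (X / 2) n with h' | h'
        · exact Or.inr ⟨⟨h', hn.1.2⟩, hn.2⟩
        · exact Or.inl ⟨⟨hn.1.1, h'⟩, hn.2⟩
      have h4 : (((Finset.Icc 1 X).filter P).card : ℝ) ≤
          (((Finset.Icc 1 (X / 2)).filter P).card : ℝ) +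
            (((Finset.Ioc (X / 2) X).filter P).card : ℝ) := by exact_mod_cast h3
      have h5 : ((X / 2 : ℕ) : ℝ) ^ (1 - κ) ≤ r * (X : ℝ) ^ (1 - κ) := by
        rw [hrdef, ← mul_rpow (by norm_num) (by linarith)]
        refine rpow_le_rpow (by positivity) ?_ (by linarith)
        have : ((X / 2 : ℕ) : ℝ) ≤ (X : ℝ) / 2 := Nat.cast_div_le
        linarith
      have h6 : 7 * (K : ℝ) ≤ C * (1 - r) := by
        rw [hC, add_mul, div_mul_cancel₀ _ h1r.ne']
        have : 0 ≤ (2 * (n0 : ℝ) + 2) * (1 - r) := by positivity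
        linarith
      calc (((Finset.Icc 1 X).filter P).card : ℝ)
          ≤ C * ((X / 2 : ℕ) : ℝ) ^ (1 - κ) + 7 * K * (X : ℝ) ^ (1 - κ) := by linarith
        _ ≤ C * (r * (X : ℝ) ^ (1 - κ)) + (C * (1 - r)) * (X : ℝ) ^ (1 - κ) := by gcongr
        _ = _ := by ring

end Pool.Agent.Helper16
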