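import Pool.Agent.Helper16.TM_LS3

/-! # MP_fc8395_an, module LS1 : comparison of approximate integral curves -/

set_option autoImplicit false

open scoped ContDiff Topology
open Filter Set

namespace TM

lemma ls1_right {x1 x K ε : ℝ} {g h g' h' : ℝ → ℝ} (hK : 0 < K) (hx : x1 ≤ x)
    (hg : ∀ t ∈ Icc x1 x, HasDerivAt g (g' t) t) (hh : ∀ t ∈ Icc x1 x, HasDerivAt h (h' t) t)
    (h1 : g x1 = h x1) (hb : ∀ t ∈ Icc x1 x, |g' t - h' t| ≤ K * |g t - h t| + ε) :
    |g x - h x| ≤ ε / K * (Real.exp (K * (x - x1)) - 1) := by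
  have h2 := norm_le_gronwallBound_of_norm_deriv_right_le (f := fun t => g t - h t)
    (f' := fun t => g' t - h' t) (δ := 0) (K := K) (ε := ε) (a := x1) (b := x)
    (fun t ht => ((hg t ht).sub (hh t ht)).continuousAt.continuousWithinAt)
    (fun t ht => ((hg t ⟨ht.1, ht.2.le⟩).sub (hh t ⟨ht.1, ht.2.le⟩)).hasDerivWithinAt)
    (by simp [h1]) (fun t ht => hb t ⟨ht.1, ht.2.le⟩) x ⟨hx, le_rfl⟩
  rw [gronwallBound_of_K_ne_0 hK.ne'] at h2
  simpa using h2

lemma ls1_both {a b x1 x K ε : ℝ} {g h g' h' : ℝ → ℝ} (hK : 0 < K) (hx1 : x1 ∈ Ioo a b)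
    (hx : x ∈ Ioo a b)
    (hg : ∀ t ∈ Ioo a b, HasDerivAt g (g' t) t) (hh : ∀ t ∈ Ioo a b, HasDerivAt h (h' t) t)
    (h1 : g x1 = h x1) (hb : ∀ t ∈ Ioo a b, |g' t - h' t| ≤ K * |g t - h t| + ε) :
    |g x - h x| ≤ ε / K * (Real.exp (K * |x - x1|) - 1) := by
  rcases le_total x1 x with hxx | hxx
  · rw [abs_of_nonneg (sub_nonneg.2 hxx)]
    have hsub : Icc x1 x ⊆ Ioo a b := fun t ht =>
      ⟨lt_of_lt_of_le hx1.1 ht.1, lt_of_le_of_lt ht.2 hx.2⟩
    exact ls1_right hK hxx (fun t ht => hg t (hsub ht)) (fun t ht => hh t (hsub ht)) h1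
      (fun t ht => hb t (hsub ht))
  · have e1 : |x - x1| = x1 - x := by rw [abs_sub_comm, abs_of_nonneg (sub_nonneg.2 hxx)]
    rw [e1]
    have hsub : ∀ t ∈ Icc x1 (2 * x1 - x), 2 * x1 - t ∈ Ioo a b := fun t ht =>
      ⟨by linarith [ht.2, hx.1], by linarith [ht.1, hx1.2]⟩
    have e2 : 2 * x1 - x1 = x1 := by ring
    have e3 : 2 * x1 - (2 * x1 - x) = x := by ring
    have e4 : 2 * x1 - x - x1 = x1 - x := by ring
    have hr : ∀ t : ℝ, HasDerivAt (fun t : ℝ => 2 * x1 - t) (-1) t := fun t => by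
      simpa using (hasDerivAt_id t).const_sub (2 * x1)
    have h2 := ls1_right (g := fun t => g (2 * x1 - t)) (h := fun t => h (2 * x1 - t))
      (g' := fun t => g' (2 * x1 - t) * (-1)) (h' := fun t => h' (2 * x1 - t) * (-1))
      (x1 := x1) (x := 2 * x1 - x) (ε := ε) hK (by linarith)
      (fun t ht => (hg _ (hsub t ht)).comp t (hr t)) (fun t ht => (hh _ (hsub t ht)).comp t (hr t))
      (by simp only [e2, h1]) ?_
    · simp only [e3, e4] at h2
      exact h2
    · intro t ht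
      have h3 := hb _ (hsub t ht)
      have e5 : g' (2 * x1 - t) * (-1) - h' (2 * x1 - t) * (-1)
          = -(g' (2 * x1 - t) - h' (2 * x1 - t)) := by ring
      show |g' (2 * x1 - t) * (-1) - h' (2 * x1 - t) * (-1)| ≤ _
      rw [e5, abs_neg]
      exact h3

theorem approx_curves {O : Set (ℝ × ℝ)} (hO : IsOpen O) {μ : ℝ × ℝ → ℝ}
    (hμ : ContDiffOn ℝ 1 μ O) {a b : ℝ} {h : ℝ → ℝ}
    (hh : ∀ x ∈ Ioo a b, (x, h x) ∈ O ∧ HasDerivAt h (μ (x, h x)) x)
    {g g' : ℕ → ℝ → ℝ} {ε : ℕ → ℝ} (hε : Tendsto ε atTop (𝓝 0)) {x1 : ℝ} (hx1 : x1 ∈ Ioo a b)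
    (hg1 : ∀ n, g n x1 = h x1) (hg : ∀ n, ∀ x ∈ Ioo a b, HasDerivAt (g n) (g' n x) x)
    (hg' : ∀ n, ∀ x ∈ Ioo a b, (x, g n x) ∈ O → |g' n x - μ (x, g n x)| ≤ ε n) :
    ∃ δ > 0, Ioo (x1 - δ) (x1 + δ) ⊆ Ioo a b ∧
      (∀ᶠ n in atTop, ∀ x ∈ Ioo (x1 - δ) (x1 + δ), (x, g n x) ∈ O) ∧
      ∀ x ∈ Ioo (x1 - δ) (x1 + δ), Tendsto (fun n => g n x) atTop (𝓝 (h x)) := by
  have hq1 : (x1, h x1) ∈ O := (hh x1 hx1).1
  obtain ⟨K0, t, ht, hLip⟩ :=
    (hμ.contDiffAt (hO.mem_nhds hq1)).exists_lipschitzOnWith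
  obtain ⟨r, hr, hrt⟩ := Metric.mem_nhds_iff.1 (inter_mem ht (hO.mem_nhds hq1))
  -- constants
  set K : ℝ := (K0 : ℝ) + 1 with hKdef
  have hK : 0 < K := by positivity
  set M0 : ℝ := |μ (x1, h x1)| + K * r with hM0
  have hM0' : 0 ≤ M0 := by positivity
  have memb : ∀ x y : ℝ, |x - x1| < r → |y - h x1| < r → (x, y) ∈ t ∩ O := by
    intro x y h1 h2
    apply hrt
    rw [Metric.mem_ball, Prod.dist_eq]
    exact max_lt (by rw [Real.dist_eq]; exact h1) (by rw [Real.dist_eq]; exact h2)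
  have lip : ∀ x y y' : ℝ, |x - x1| < r → |y - h x1| < r → |y' - h x1| < r →
      |μ (x, y) - μ (x, y')| ≤ K * |y - y'| := by
    intro x y y' h1 h2 h3
    have h4 := hLip.dist_le_mul (x, y) (memb x y h1 h2).1 (x, y') (memb x y' h1 h3).1
    rw [Real.dist_eq, Prod.dist_eq] at h4
    simp only [dist_self, Real.dist_eq] at h4
    rw [max_eq_right (abs_nonneg _)] at h4
    refine h4.trans ?_
    apply mul_le_mul_of_nonneg_right _ (abs_nonneg _)
    rw [hKdef]; linarith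
  have bd : ∀ x y : ℝ, |x - x1| < r → |y - h x1| < r → |μ (x, y)| ≤ M0 := by
    intro x y h1 h2
    have hr0 : |x1 - x1| < r := by simpa using hr
    have hr1 : |h x1 - h x1| < r := by simpa using hr
    have h4 := hLip.dist_le_mul (x, y) (memb x y h1 h2).1 (x1, h x1) (memb x1 (h x1) hr0 hr1).1
    rw [Real.dist_eq, Prod.dist_eq] at h4
    simp only [Real.dist_eq] at h4
    have h5 : (K0 : ℝ) * max |x - x1| |y - h x1| ≤ K * r := by
      apply mul_le_mul _ (max_le h1.le h2.le) (le_max_of_le_left (abs_nonneg _)) hK.le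
      rw [hKdef]; linarith
    have h6 : |μ (x, y)| ≤ |μ (x1, h x1)| + |μ (x, y) - μ (x1, h x1)| := by
      have := abs_add_le (μ (x1, h x1)) (μ (x, y) - μ (x1, h x1))
      simpa using this
    rw [hM0]
    linarith
  -- choice of δ
  obtain ⟨δ0, hδ0, hδ0'⟩ := Metric.mem_nhds_iff.1 (isOpen_Ioo.mem_nhds hx1)
  set δ : ℝ := min δ0 (r / (M0 + 2)) with hδdef
  have hδpos : 0 < δ := lt_min hδ0 (by positivity)
  have hδr : (M0 + 2) * δ ≤ r := by
    have : δ ≤ r / (M0 + 2) := min_le_right _ _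
    rwa [le_div_iff₀ (by positivity), mul_comm] at this
  have hδr' : δ ≤ r := by nlinarith
  have hsub : Ioo (x1 - δ) (x1 + δ) ⊆ Ioo a b := by
    rw [← Real.ball_eq_Ioo]
    exact (Metric.ball_subset_ball (min_le_left _ _)).trans hδ0'
  have habs : ∀ x ∈ Ioo (x1 - δ) (x1 + δ), |x - x1| < δ := fun x hx => by
    rw [abs_lt]; constructor <;> linarith [hx.1, hx.2]
  have hx1' : x1 ∈ Ioo (x1 - δ) (x1 + δ) := ⟨by linarith, by linarith⟩
  -- staying in the ball
  have stay : ∀ (f f' : ℝ → ℝ), f x1 = h x1 →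
      (∀ x ∈ Ioo (x1 - δ) (x1 + δ), HasDerivAt f (f' x) x) →
      (∀ x ∈ Ioo (x1 - δ) (x1 + δ), |f x - h x1| < r → |f' x - μ (x, f x)| ≤ 1) →
      ∀ x ∈ Ioo (x1 - δ) (x1 + δ), |f x - h x1| < r := by
    intro f f' hf1 hf hf' x hx
    have hb := barrier (f := fun x => f x - h x1) (M := M0 + 1) (β := r) hx1' ?_ ?_ ?_ x hx ?_
    · simp only [hf1, sub_self, sub_zero] at hb
      have h2 : (M0 + 1) * |x - x1| ≤ (M0 + 1) * δ :=
        mul_le_mul_of_nonneg_left (habs x hx).le (by linarith)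
      nlinarith
    · intro y hy hlt
      have h2 : HasDerivAt (fun x => f x - h x1) (f' y) y := (hf y hy).sub_const _
      refine ⟨h2.differentiableAt, ?_⟩
      rw [h2.deriv]
      have h3 := hf' y hy hlt
      have h4 := bd y (f y) ((habs y hy).trans_le hδr') hlt
      have h5 : |f' y| ≤ |μ (y, f y)| + |f' y - μ (y, f y)| := by
        have := abs_add_le (μ (y, f y)) (f' y - μ (y, f y))
        simpa using this
      linarith
    · exact fun y hy => ((hf y hy).sub_const (h x1)).continuousAt.continuousWithinAt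
    · simpa only [hf1, sub_self, abs_zero] using hr
    · simp only [hf1, sub_self, abs_zero, zero_add]
      have h2 : (M0 + 1) * |x - x1| ≤ (M0 + 1) * δ :=
        mul_le_mul_of_nonneg_left (habs x hx).le (by linarith)
      nlinarith
  have hstay : ∀ x ∈ Ioo (x1 - δ) (x1 + δ), |h x - h x1| < r :=
    stay h (fun x => μ (x, h x)) rfl (fun x hx => (hh x (hsub hx)).2)
      (fun x hx _ => by simp)
  have hev : ∀ᶠ n in atTop, ε n ≤ 1 := hε.eventually_le_const (by norm_num)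
  have gstay : ∀ᶠ n in atTop, ∀ x ∈ Ioo (x1 - δ) (x1 + δ), |g n x - h x1| < r := by
    filter_upwards [hev] with n hn
    exact stay (g n) (g' n) (hg1 n) (fun x hx => hg n x (hsub hx))
      (fun x hx hlt => (hg' n x (hsub hx)
        (memb x (g n x) ((habs x hx).trans_le hδr') hlt).2).trans hn)
  refine ⟨δ, hδpos, hsub, ?_, ?_⟩
  · filter_upwards [gstay] with n hn x hx
    exact (memb x (g n x) ((habs x hx).trans_le hδr') (hn x hx)).2
  · intro x hx
    have hlim : Tendsto (fun n => ε n / K * (Real.exp (K * |x - x1|) - 1)) atTop (𝓝 0) := by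
      have := (hε.div_const K).mul_const (Real.exp (K * |x - x1|) - 1)
      simpa using this
    rw [tendsto_iff_dist_tendsto_zero]
    refine squeeze_zero' (Eventually.of_forall fun n => dist_nonneg) ?_ hlim
    filter_upwards [gstay] with n hn
    rw [Real.dist_eq]
    refine ls1_both (g := g n) (h := h) (g' := g' n) (h' := fun x => μ (x, h x)) hK hx1' hx
      (fun y hy => hg n y (hsub hy)) (fun y hy => (hh y (hsub hy)).2) (hg1 n) ?_
    intro y hy
    have hy' := (habs y hy).trans_le hδr'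
    have h2 := hg' n y (hsub hy) (memb y (g n y) hy' (hn y hy)).2
    have h3 := lip y (g n y) (h y) hy' (hn y hy) (hstay y hy)
    have h4 : |g' n y - μ (y, h y)| ≤ |g' n y - μ (y, g n y)| + |μ (y, g n y) - μ (y, h y)| := by
      have := abs_add_le (g' n y - μ (y, g n y)) (μ (y, g n y) - μ (y, h y))
      simpa using this
    show |g' n y - μ (y, h y)| ≤ _
    linarith

end TM
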