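import Mathlib

/-! # MP_fc8395_an, module LS3 : a barrier lemma -/

set_option autoImplicit false

open scoped ContDiff Topology
open Filter Set

namespace TM

lemma ls3_right {x1 x M β : ℝ} {f : ℝ → ℝ} (hx : x1 ≤ x)
    (hf : ∀ t ∈ Icc x1 x, |f t| < β → DifferentiableAt ℝ f t ∧ |deriv f t| ≤ M)
    (hfc : ContinuousOn f (Icc x1 x)) (h1 : |f x1| < β) (hb : |f x1| + M * (x - x1) < β) :
    |f x - f x1| ≤ M * (x - x1) := by
  have hM : 0 ≤ M := le_trans (abs_nonneg _) (hf x1 ⟨le_rfl, hx⟩ h1).2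
  have key : ∀ t ∈ Icc x1 x, (∀ s ∈ Ico x1 t, |f s| < β) → |f t - f x1| ≤ M * (t - x1) := by
    intro t ht hs
    have hD : ∀ s ∈ Ico x1 t, HasDerivWithinAt f (deriv f s) (Ici s) s := fun s hs' =>
      (hf s ⟨hs'.1, hs'.2.le.trans ht.2⟩ (hs s hs')).1.hasDerivAt.hasDerivWithinAt
    have h2 := norm_image_sub_le_of_norm_deriv_right_le_segment (f := f) (f' := deriv f)
      (a := x1) (b := t) (C := M) (hfc.mono (Icc_subset_Icc_right ht.2)) hD
      (fun s hs' => (hf s ⟨hs'.1, hs'.2.le.trans ht.2⟩ (hs s hs')).2) t ⟨ht.1, le_rfl⟩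
    exact h2
  have all : ∀ t ∈ Icc x1 x, |f t| < β := by
    by_contra hcon
    push Not at hcon
    obtain ⟨t0, ht0, h0⟩ := hcon
    have hS : IsClosed (Icc x1 x ∩ (fun t => |f t|) ⁻¹' Ici β) :=
      hfc.abs.preimage_isClosed_of_isClosed isClosed_Icc isClosed_Ici
    have hne : (Icc x1 x ∩ (fun t => |f t|) ⁻¹' Ici β).Nonempty := ⟨t0, ht0, h0⟩
    have hbdd : BddBelow (Icc x1 x ∩ (fun t => |f t|) ⁻¹' Ici β) := ⟨x1, fun t ht => ht.1.1⟩
    have hs := hS.csInf_mem hne hbdd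
    have h2 := key _ hs.1 (fun r hr => by
      by_contra hh
      exact absurd (csInf_le hbdd ⟨⟨hr.1, hr.2.le.trans hs.1.2⟩, not_lt.1 hh⟩) (not_le.2 hr.2))
    have h3 : β ≤ |f (sInf (Icc x1 x ∩ (fun t => |f t|) ⁻¹' Ici β))| := hs.2
    have h4 := hs.1.2
    set s := sInf (Icc x1 x ∩ (fun t => |f t|) ⁻¹' Ici β)
    have h5 : |f s| ≤ |f x1| + |f s - f x1| := by
      have := abs_add_le (f x1) (f s - f x1)
      simpa using this
    have h6 : M * (s - x1) ≤ M * (x - x1) := mul_le_mul_of_nonneg_left (by linarith) hM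
    linarith
  exact key x ⟨hx, le_rfl⟩ (fun s hs => all s ⟨hs.1, hs.2.le⟩)

theorem barrier {a b x1 M β : ℝ} {f : ℝ → ℝ} (hx1 : x1 ∈ Ioo a b)
    (hf : ∀ x ∈ Ioo a b, |f x| < β → DifferentiableAt ℝ f x ∧ |deriv f x| ≤ M)
    (hfc : ContinuousOn f (Ioo a b)) (h1 : |f x1| < β) :
    ∀ x ∈ Ioo a b, |f x1| + M * |x - x1| < β → |f x - f x1| ≤ M * |x - x1| := by
  intro x hx hb
  rcases le_total x1 x with h | h
  · rw [abs_of_nonneg (sub_nonneg.2 h)] at hb ⊢
    have hsub : Icc x1 x ⊆ Ioo a b := fun t ht => ⟨lt_of_lt_of_le hx1.1 ht.1, lt_of_le_of_lt ht.2 hx.2⟩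
    exact ls3_right h (fun t ht => hf t (hsub ht)) (hfc.mono hsub) h1 hb
  · have e1 : |x - x1| = x1 - x := by rw [abs_sub_comm, abs_of_nonneg (sub_nonneg.2 h)]
    rw [e1] at hb ⊢
    have hsub : ∀ t ∈ Icc x1 (2 * x1 - x), 2 * x1 - t ∈ Ioo a b := fun t ht =>
      ⟨by linarith [ht.2, hx.1], by linarith [ht.1, hx1.2]⟩
    have e2 : 2 * x1 - x1 = x1 := by ring
    have e3 : 2 * x1 - (2 * x1 - x) = x := by ring
    have hcont : ContinuousOn (fun t => f (2 * x1 - t)) (Icc x1 (2 * x1 - x)) :=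
      hfc.comp (by fun_prop) hsub
    have h2 := ls3_right (f := fun t => f (2 * x1 - t)) (x1 := x1) (x := 2 * x1 - x) (M := M)
      (β := β) (by linarith) ?_ hcont (by simpa only [e2] using h1)
      (by simp only [e2]; linarith)
    · simp only [e2, e3] at h2
      have e4 : 2 * x1 - x - x1 = x1 - x := by ring
      rw [e4] at h2
      exact h2
    · intro t ht hlt
      obtain ⟨hd, hd'⟩ := hf _ (hsub t ht) hlt
      have h3 : HasDerivAt (fun t : ℝ => 2 * x1 - t) (-1) t := by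
        simpa using (hasDerivAt_id t).const_sub (2 * x1)
      have h4 : HasDerivAt (fun t => f (2 * x1 - t)) (deriv f (2 * x1 - t) * (-1)) t :=
        hd.hasDerivAt.comp t h3
      refine ⟨h4.differentiableAt, ?_⟩
      rw [h4.deriv, mul_neg_one, abs_neg]
      exact hd'

end TM
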