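import Pool.Agent.Helper55.TM.Links
import Pool.Agent.Helper16.TM_LS1
import Pool.Agent.Helper95.TM_LS2
import Pool.Agent.Helper80.TM_LL
import Pool.Agent.Helper42.TM_IH
import Pool.Agent.Helper68.TM_ST

/-! # MP_fc8395_an, module LS4 : smoothness of the leaves -/

set_option autoImplicit false

open scoped ContDiff Topology
open Filter Set

namespace TM

/-- The slope of a level curve. -/
lemma ls4_slope {f : ℝ × ℝ → ℝ} {g : ℝ → ℝ} {x c : ℝ} (hf : DifferentiableAt ℝ f (x, g x))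
    (hg : DifferentiableAt ℝ g x) (hne : dt f (x, g x) ≠ 0)
    (hc : ∀ᶠ y in 𝓝 x, f (y, g y) = c) : deriv g x = slope f (x, g x) := by
  have h1 : HasDerivAt (fun y => ((y, g y) : ℝ × ℝ)) ((1 : ℝ), deriv g x) x :=
    (hasDerivAt_id x).prodMk hg.hasDerivAt
  have h2 : HasDerivAt (fun y => f (y, g y)) (fderiv ℝ f (x, g x) (1, deriv g x)) x :=
    hf.hasFDerivAt.comp_hasDerivAt x h1
  have h3 : HasDerivAt (fun y => f (y, g y)) 0 x :=
    (hasDerivAt_const x c).congr_of_eventuallyEq hc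
  have h4 := h2.unique h3
  have h5 : ((1 : ℝ), deriv g x) = ((1 : ℝ), (0 : ℝ)) + deriv g x • ((0 : ℝ), (1 : ℝ)) := by
    simp
  rw [h5, map_add, map_smul, smul_eq_mul] at h4
  have h6 : dz f (x, g x) + deriv g x * dt f (x, g x) = 0 := h4
  unfold slope
  rw [eq_div_iff hne]
  linarith

theorem leaf_smooth {e : ℝ} (he : 0 < e) {k : ℕ → ℕ} (hk : ∀ i, 1 ≤ k i) {N0 : ℕ}
    {O : Set (ℝ × ℝ)} (hO : IsOpen O) (hOD : O ⊆ Dom) (hN0 : ∀ q ∈ O, |F e k N0 q| < B e)
    {μ : ℝ × ℝ → ℝ} (hμ : ContDiffOn ℝ 1 μ O) {rate : ℕ → ℝ} (hrate : Tendsto rate atTop (𝓝 0))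
    (hclose : ∀ N, N0 ≤ N → ∀ q ∈ O, |F e k N q| ≤ 1 →
      |dt (F e k N) q| * |μ q - slope (F e k N) q| ≤ rate N)
    {a b : ℝ} {h : ℝ → ℝ} (hh : ∀ x ∈ Ioo a b, (x, h x) ∈ O ∧ HasDerivAt h (μ (x, h x)) x)
    (hW : ∀ x ∈ Ioo a b, Psi e x (h x) ∈ W e k) : ContDiffOn ℝ ∞ h (Ioo a b) := by
  obtain ⟨C, hC⟩ := level_curve he
  intro x1 hx1
  apply ContDiffAt.contDiffWithinAt
  -- the sequence of levels
  have hinf : ∀ i : ℕ, ∃ N, max (N0 + 1) i ≤ N ∧ |F e k N (x1, h x1)| < 1 := fun i =>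
    W_inf he hk (hW x1 hx1) _
  choose N hN1 hN2 using hinf
  have hq1 : (x1, h x1) ∈ Dom := hOD (hh x1 hx1).1
  have hlc := fun i => hC k hk N0 (N i) (by have := hN1 i; omega) _ hq1 (hN2 i)
  choose w g hw hg hg1 hgN hgN0 hwb using hlc
  have hsub : Ioo a b ⊆ Ioo 0 Real.pi := fun x hx => hOD (hh x hx).1
  have hNtop : Tendsto N atTop atTop := tendsto_atTop_mono (fun i => le_trans (le_max_right _ _) (hN1 i)) tendsto_id
  have hgd : ∀ i, ∀ x ∈ Ioo 0 Real.pi, DifferentiableAt ℝ (g i) x := fun i x hx =>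
    ((hg i).contDiffAt (isOpen_Ioo.mem_nhds hx)).differentiableAt (by simp)
  have hwd : ∀ i, ∀ c ∈ Ioo (-1 : ℝ) 1, DifferentiableAt ℝ (w i) c := fun i x hx =>
    ((hw i).contDiffAt (isOpen_Ioo.mem_nhds hx)).differentiableAt (by simp)
  have hslope : ∀ i, ∀ x ∈ Ioo 0 Real.pi, deriv (g i) x = slope (F e k (N i)) (x, g i x) := by
    intro i x hx
    have hxD : (x, g i x) ∈ Dom := hx
    refine ls4_slope (c := F e k (N i) (x1, h x1))
      ((contDiffAt_F hxD).differentiableAt (by simp)) (hgd i x hx) (F_ne he hk hxD ?_) ?_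
    · rw [hgN i x hx]
      exact (hN2 i).trans (one_lt_V he)
    · filter_upwards [isOpen_Ioo.mem_nhds hx] with y hy
      exact hgN i y hy
  -- LS1
  have hε : Tendsto (fun i => 2 / e * rate (N i)) atTop (𝓝 0) := by
    have := (hrate.comp hNtop).const_mul (2 / e)
    simpa using this
  obtain ⟨δ, hδ, hδsub, hδO, hδlim⟩ := approx_curves hO hμ hh (g := g)
    (g' := fun i x => deriv (g i) x) hε hx1 hg1
    (fun i x hx => (hgd i x (hsub hx)).hasDerivAt) (by
      intro i x hx hxO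
      have hxD := hOD hxO
      have hFx : |F e k (N i) (x, g i x)| < 1 := by rw [hgN i x hxD]; exact hN2 i
      have h1 := hclose (N i) (by have := hN1 i; omega) _ hxO hFx.le
      rw [hslope i x hxD, abs_sub_comm]
      obtain ⟨-, h2⟩ := F_tame he hk (n := N i) hxD (hFx.le.trans (one_lt_B he).le)
      have h3 : (1 : ℝ) ≤ (dg k (N i)).1 := by exact_mod_cast dg_pos hk (N i)
      have h4 : (e / 2) ^ 2 ≤ |dt (F e k (N i)) (x, g i x)| ^ 2 := by
        rw [sq_abs]; nlinarith [sq_nonneg e]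
      have h5 : e / 2 ≤ |dt (F e k (N i)) (x, g i x)| :=
        (pow_le_pow_iff_left₀ (by positivity) (abs_nonneg _) (by norm_num)).1 h4
      have h6 : e / 2 * |μ (x, g i x) - slope (F e k (N i)) (x, g i x)| ≤ rate (N i) :=
        (mul_le_mul_of_nonneg_right h5 (abs_nonneg _)).trans h1
      have h7 : |μ (x, g i x) - slope (F e k (N i)) (x, g i x)|
          = 2 / e * (e / 2 * |μ (x, g i x) - slope (F e k (N i)) (x, g i x)|) := by
        field_simp
      rw [h7]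
      exact mul_le_mul_of_nonneg_left h6 (by positivity))
  -- limits of `w`
  have hwlim : ∀ x ∈ Ioo (x1 - δ) (x1 + δ),
      Tendsto (fun i => w i (Real.cos x)) atTop (𝓝 (F e k N0 (x, h x))) := by
    intro x hx
    have hxab := hδsub hx
    have hxD : (x, h x) ∈ Dom := hOD (hh x hxab).1
    have h1 : Tendsto (fun i => ((x, g i x) : ℝ × ℝ)) atTop (𝓝 (x, h x)) :=
      tendsto_const_nhds.prodMk_nhds (hδlim x hx)
    have h2 := ((contDiffAt_F (e := e) (k := k) (n := N0) hxD).continuousAt.tendsto).comp h1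
    refine h2.congr fun i => ?_
    exact hgN0 i x (hsub hxab)
  -- the interval around `cos x1`
  have hx1pi := hsub hx1
  have hcos1 : Real.cos x1 ∈ Ioo (-1 : ℝ) 1 := by
    constructor
    · have := Real.cos_lt_cos_of_nonneg_of_le_pi hx1pi.1.le le_rfl hx1pi.2
      rwa [Real.cos_pi] at this
    · have := Real.cos_lt_cos_of_nonneg_of_le_pi le_rfl hx1pi.2.le hx1pi.1
      rwa [Real.cos_zero] at this
  have hq1B : |F e k N0 (x1, h x1)| < B e := hN0 _ (hh x1 hx1).1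
  have hw1 : ∀ i, w i (Real.cos x1) = F e k N0 (x1, h x1) := by
    intro i
    rw [← hgN0 i x1 hx1pi]
    show F e k N0 (x1, g i x1) = _
    rw [show g i x1 = h x1 from hg1 i]
  have hC1 : 0 ≤ C 1 := le_trans (abs_nonneg _)
    (hwb 0 _ hcos1 (by rw [hw1]; exact hq1B) 1)
  obtain ⟨ρ, hρ, hρB⟩ : ∃ ρ : ℝ, 0 < ρ ∧ |F e k N0 (x1, h x1)| + C 1 * ρ < B e := by
    refine ⟨(B e - |F e k N0 (x1, h x1)|) / (C 1 + 1), div_pos (sub_pos.2 hq1B) (by linarith), ?_⟩
    have h1 : C 1 * ((B e - |F e k N0 (x1, h x1)|) / (C 1 + 1))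
        < B e - |F e k N0 (x1, h x1)| := by
      rw [mul_div_assoc', div_lt_iff₀ (by linarith)]
      nlinarith
    linarith
  have harc : Real.arccos (Real.cos x1) = x1 := Real.arccos_cos hx1pi.1.le hx1pi.2.le
  have hnb : {c : ℝ | Real.arccos c ∈ Ioo (x1 - δ) (x1 + δ) ∧ |c - Real.cos x1| < ρ ∧
      c ∈ Ioo (-1 : ℝ) 1} ∈ 𝓝 (Real.cos x1) := by
    have h1 : ∀ᶠ c in 𝓝 (Real.cos x1), Real.arccos c ∈ Ioo (x1 - δ) (x1 + δ) := by
      apply Real.continuous_arccos.continuousAt.eventually_mem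
      rw [harc]
      exact Ioo_mem_nhds (by linarith) (by linarith)
    have h2 : ∀ᶠ c in 𝓝 (Real.cos x1), |c - Real.cos x1| < ρ := by
      have := Metric.ball_mem_nhds (Real.cos x1) hρ
      filter_upwards [this] with c hc
      rwa [Metric.mem_ball, Real.dist_eq] at hc
    have h3 : ∀ᶠ c in 𝓝 (Real.cos x1), c ∈ Ioo (-1 : ℝ) 1 := isOpen_Ioo.mem_nhds hcos1
    filter_upwards [h1, h2, h3] with c c1 c2 c3
    exact ⟨c1, c2, c3⟩
  obtain ⟨l, u, hlu, hlu'⟩ := mem_nhds_iff_exists_Ioo_subset.1 hnb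
  -- the bound
  have hwB : ∀ i, ∀ c ∈ Ioo l u, |w i c| < B e := by
    intro i c hc
    obtain ⟨-, c2, c3⟩ := hlu' hc
    have h1 := barrier (f := w i) (M := C 1) (β := B e) hcos1 (fun y hy hlt => by
      refine ⟨hwd i y hy, ?_⟩
      have := hwb i y hy hlt 1
      rwa [iteratedDeriv_one] at this) (hw i).continuousOn (by rw [hw1]; exact hq1B) c c3
    rw [hw1] at h1
    have h2 : C 1 * |c - Real.cos x1| ≤ C 1 * ρ := mul_le_mul_of_nonneg_left c2.le hC1
    have h3 := h1 (by linarith)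
    have h4 : |w i c| ≤ |F e k N0 (x1, h x1)| + |w i c - F e k N0 (x1, h x1)| := by
      have := abs_add_le (F e k N0 (x1, h x1)) (w i c - F e k N0 (x1, h x1))
      simpa using this
    linarith
  have hlim : ContDiffOn ℝ ∞ (fun c => F e k N0 (Real.arccos c, h (Real.arccos c))) (Ioo l u) := by
    refine limit_smooth C (f := w) (fun i => (hw i).mono fun c hc => (hlu' hc).2.2) ?_ ?_
    · intro i j c hc
      exact hwb i c (hlu' hc).2.2 (hwB i c hc) j
    · intro c hc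
      obtain ⟨c1, -, c3⟩ := hlu' hc
      have h1 := hwlim _ c1
      rwa [Real.cos_arccos c3.1.le c3.2.le] at h1
  -- the interval around `x1`
  have hnb2 : {x : ℝ | Real.cos x ∈ Ioo l u ∧ x ∈ Ioo a b} ∈ 𝓝 x1 := by
    have h1 : ∀ᶠ x in 𝓝 x1, Real.cos x ∈ Ioo l u :=
      Real.continuous_cos.continuousAt.eventually_mem (isOpen_Ioo.mem_nhds hlu)
    have h2 : ∀ᶠ x in 𝓝 x1, x ∈ Ioo a b := isOpen_Ioo.mem_nhds hx1
    filter_upwards [h1, h2] with x c1 c2
    exact ⟨c1, c2⟩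
  obtain ⟨l', u', hlu2, hlu2'⟩ := mem_nhds_iff_exists_Ioo_subset.1 hnb2
  have hcomp : ContDiffOn ℝ ∞ (fun x => F e k N0 (x, h x)) (Ioo l' u') := by
    have h1 : ContDiffOn ℝ ∞ (fun x => (fun c => F e k N0 (Real.arccos c, h (Real.arccos c)))
        (Real.cos x)) (Ioo l' u') :=
      hlim.comp Real.contDiff_cos.contDiffOn (fun x hx => (hlu2' hx).1)
    refine h1.congr fun x hx => ?_
    have hxpi := hsub (hlu2' hx).2
    show _ = F e k N0 (Real.arccos (Real.cos x), h (Real.arccos (Real.cos x)))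
    rw [Real.arccos_cos hxpi.1.le hxpi.2.le]
  have hfin := implicit_smooth hO ((contDiffOn_F e k N0).mono hOD) (a := l') (b := u') (h := h)
    (fun x hx => (hh x (hlu2' hx).2).2.continuousAt.continuousWithinAt)
    (fun x hx => (hh x (hlu2' hx).2).1)
    (fun x hx => F_ne he hk (hOD (hh x (hlu2' hx).2).1)
      ((hN0 _ (hh x (hlu2' hx).2).1).trans (B_lt_V he))) hcomp
  exact hfin.contDiffAt (isOpen_Ioo.mem_nhds hlu2)

end TM
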