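import Mathlib
import Pool.Agent.Helper16.WindowC

open Real Filter

namespace Pool.Agent.Helper16

/-- Facts valid for large `t`. -/
lemma log_facts (D : ℕ) : ∀ᶠ t : ℝ in atTop, (4 * D + 8) * (log t) ^ 3 ≤ t ∧
    (4 * D + 8 : ℝ) ≤ log t ∧ 1 ≤ log (log t) ∧ 2 * (60 * D + 27) * log (log t) ≤ log t := by
  have h1 := (isLittleO_pow_log_id_atTop (n := 3)).bound
    (c := 1 / (4 * D + 8 : ℝ)) (by positivity)
  have h2 := tendsto_log_atTop.eventually_ge_atTop (4 * D + 8 : ℝ)
  have h3 := (tendsto_log_atTop.comp tendsto_log_atTop).eventually_ge_atTop 1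
  have h4 := (isLittleO_log_id_atTop.bound (c := 1 / (2 * (60 * D + 27) : ℝ)) (by positivity))
  have h4' := tendsto_log_atTop.eventually h4
  filter_upwards [h1, h2, h3, h4', eventually_ge_atTop 1] with t a1 a2 a3 a4 a5
  have hlog : 0 < log t := by
    have : (0 : ℝ) ≤ D := by positivity
    linarith
  simp only [Function.comp] at a3
  refine ⟨?_, a2, a3, ?_⟩
  · rw [norm_eq_abs, norm_eq_abs, abs_of_nonneg (by positivity), id, abs_of_nonneg (by linarith),
      div_mul_eq_mul_div, one_mul, le_div_iff₀ (by positivity)] at a1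
    linarith
  · rw [norm_eq_abs, norm_eq_abs, id, abs_of_nonneg (by linarith), abs_of_nonneg hlog.le,
      div_mul_eq_mul_div, one_mul, le_div_iff₀ (by positivity)] at a4
    linarith

set_option maxHeartbeats 4000000 in
lemma exponents (D : ℕ) (hD : 1 ≤ D) (t s u : ℝ) (hs : s = log t) (hu : u = log s)
    (f1 : (4 * D + 8) * s ^ 3 ≤ t) (f2 : (4 * D + 8 : ℝ) ≤ s) (f3 : 1 ≤ u)
    (f4 : 2 * (60 * D + 27) * u ≤ s) (N p : ℕ) (hN1 : s + 1 ≤ N) (hN2 : (N : ℝ) ≤ s + 2)
    (hp1 : 2 * t / (N * s) ≤ p) (hp2 : (p : ℝ) ≤ 2 * (2 * t / (N * s) + 1)) :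
    (D * N : ℝ) < p ∧
    p * log p + (2 * p + 1) * (4 * D * s * u) + log N + (N * p + 1) * log 2 + N * p * (2 * u) +
      (-(N * p * log (N * p)) + N * p) + 2 * (D * N) + t ≤ -1 ∧
    p * log p + (2 * p + 1) * (4 * D * s * u) + log N + (N * p + 1) * log 2 + 1 + p * 0 +
      (-((120 * D + 24) * (t * u / (2 * s)))) ≤ -1 := by
  have hDR : (1 : ℝ) ≤ D := by exact_mod_cast hD
  have hs12 : 12 ≤ s := by linarith
  have hs0 : 0 < s := by linarith
  have hs3 : 12 * s ^ 3 ≤ t := by nlinarith [pow_pos hs0 3]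
  have ht0 : 0 < t := by nlinarith [pow_pos hs0 3]
  have hN0 : (0 : ℝ) < N := by linarith
  have hN2s : (N : ℝ) ≤ 2 * s := by linarith
  set R : ℝ := t / s with hR
  have hRs : R * s = t := by rw [hR]; field_simp
  have hR0 : 0 < R := by positivity
  -- R is at least 12 s ^ 2
  have hRge : (4 * D + 8) * s ^ 2 ≤ R := by
    rw [hR, le_div_iff₀ hs0]
    calc (4 * D + 8) * s ^ 2 * s = (4 * D + 8) * s ^ 3 := by ring
      _ ≤ t := f1
  have hRge2 : 12 * s ^ 2 ≤ R := by nlinarith [pow_pos hs0 2]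
  set Q : ℝ := t / s ^ 2 with hQ
  have hQs : Q * s = R := by rw [hQ, hR]; field_simp
  have hQ0 : 0 < Q := by positivity
  have hQge : (4 * D + 8) * s ≤ Q := by
    rw [hQ, le_div_iff₀ (by positivity)]
    calc (4 * D + 8) * s * s ^ 2 = (4 * D + 8) * s ^ 3 := by ring
      _ ≤ t := f1
  -- p bounds
  have hy : 2 * t / (N * s) = 2 * R / N := by rw [hR]; field_simp
  rw [hy] at hp1 hp2
  have hNp1 : 2 * R ≤ N * p := by
    rw [div_le_iff₀ hN0] at hp1; linarith
  have hNp2 : N * p ≤ 4 * R + 2 * N := by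
    have h := mul_le_mul_of_nonneg_left hp2 hN0.le
    have e : (N : ℝ) * (2 * (2 * R / N + 1)) = 4 * R + 2 * N := by field_simp; ring
    linarith
  have hNp3 : N * p ≤ 5 * R := by nlinarith
  have hpQ : (p : ℝ) ≤ 5 * Q := by
    have h3 : s * p ≤ N * p := by
      have : (0 : ℝ) ≤ p := by positivity
      nlinarith
    have h4 : s * p ≤ s * (5 * Q) := by
      calc s * p ≤ N * p := h3
        _ ≤ 5 * R := hNp3
        _ = s * (5 * Q) := by rw [← hQs]; ring
    exact le_of_mul_le_mul_left h4 hs0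
  have hpge : Q ≤ p := by
    have h3 : 2 * R ≤ 2 * s * p := by
      have : (0 : ℝ) ≤ p := by positivity
      nlinarith
    rw [← hQs] at h3
    have h4 : s * Q ≤ s * p := by linarith
    exact le_of_mul_le_mul_left h4 hs0
  have hp1' : (1 : ℝ) ≤ p := by nlinarith
  have hp0 : (0 : ℝ) < p := by linarith
  have hpt : (p : ℝ) ≤ t := by
    have : 5 * Q ≤ t := by
      have e : Q * s ^ 2 = t := by rw [hQ]; field_simp
      nlinarith
    linarith
  -- logs
  have hlogp : p * log p ≤ 5 * R := by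
    have h3 : log p ≤ s := by rw [hs]; exact log_le_log hp0 hpt
    calc p * log p ≤ p * s := by gcongr
      _ ≤ 5 * Q * s := by gcongr
      _ = 5 * R := by rw [← hQs]; ring
  have hlogNp : s - u ≤ log (N * p) := by
    have h3 : R ≤ N * p := by linarith
    calc s - u = log R := by rw [hR, log_div ht0.ne' hs0.ne', ← hs, ← hu]
      _ ≤ log (N * p) := log_le_log hR0 h3
  have hlogN : log N ≤ N := (log_le_sub_one_of_pos hN0).trans (by linarith)
  have hlog2 : log 2 ≤ 1 := by
    have := log_two_lt_d9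
    linarith
  have hlog20 : 0 ≤ log 2 := log_nonneg (by norm_num)
  have hu0 : 0 < u := by linarith
  have h3u : 3 * u ≤ s := by nlinarith
  have hRu : R ≤ R * u := by nlinarith
  -- main terms
  have m1 : (2 * p + 1) * (4 * D * s * u) ≤ 60 * D * (R * u) := by
    calc (2 * p + 1) * (4 * D * s * u) ≤ (15 * Q) * (4 * D * s * u) := by
          have : 2 * (p : ℝ) + 1 ≤ 15 * Q := by linarith
          gcongr
      _ = 60 * D * (R * u) := by rw [← hQs]; ring
  have m2 : (N * p + 1) * log 2 ≤ 5 * R + 1 := by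
    have h5 : 0 ≤ N * (p : ℝ) + 1 := by positivity
    calc (N * p + 1) * log 2 ≤ (N * p + 1) * 1 := mul_le_mul_of_nonneg_left hlog2 h5
      _ ≤ 5 * R + 1 := by linarith
  have m3 : N * p * (2 * u) + (-(N * p * log (N * p)) + N * p) ≤ -(2 * t) + 6 * (R * u) + 5 * R := by
    have h6 : N * p * (s - u) ≤ N * p * log (N * p) := by gcongr
    have h7 : 2 * R * (s - 3 * u) ≤ N * p * (s - 3 * u) :=
      mul_le_mul_of_nonneg_right hNp1 (by linarith)
    have h8 : 2 * R * (s - 3 * u) = 2 * t - 6 * (R * u) := by rw [← hRs]; ring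
    nlinarith
  have hsmall : log N + 2 * (D * N) + 3 ≤ R := by
    have h9 : log N + 2 * (D * N) + 3 ≤ 2 * s + 4 * D * s + 3 := by nlinarith
    have h10 : 2 * s + 4 * D * s + 3 ≤ (4 * D + 8) * s := by nlinarith
    have h11 : (4 * D + 8) * s ≤ (4 * D + 8) * s ^ 2 := by
      have : s ≤ s ^ 2 := by nlinarith
      gcongr
    linarith
  have hDN : 0 ≤ 2 * ((D : ℝ) * N) := by positivity
  refine ⟨?_, ?_, ?_⟩
  · have h12 : (D : ℝ) * N ≤ 2 * D * s := by nlinarith
    have h13 : 2 * D * s < (4 * D + 8) * s := by nlinarith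
    linarith
  · have h14 : 2 * (60 * D + 27) * (R * u) ≤ t := by
      calc 2 * (60 * D + 27) * (R * u) = R * (2 * (60 * D + 27) * u) := by ring
        _ ≤ R * s := by gcongr
        _ = t := hRs
    nlinarith
  · have e : t * u / (2 * s) = R * u / 2 := by rw [hR]; field_simp
    rw [e]
    nlinarith

end Pool.Agent.Helper16
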