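import Mathlib
import Pool.Agent.Helper16.WindowD

open Real Filter

namespace Pool.Agent.Helper16

/-- The subexponential threshold. -/
noncomputable def thr (C : ℝ) (n : ℕ) : ℝ :=
  exp (-(C * n * log (log n) / log n))

set_option maxHeartbeats 4000000 in
/-- In a window of length `D * (⌈log t⌉ + 1)` at most `⌈log t⌉` indices have `dst n ≤ thr C n`. -/
theorem window_log (D : ℕ) (hD : 1 ≤ D) :
    ∃ n0 : ℕ, ∀ t : ℕ, n0 ≤ t → ∀ s : Finset ℕ,
      (∀ n ∈ s, dst n ≤ thr (120 * D + 24) n ∧ t ≤ n ∧ n ≤ t + D * (⌈log (t : ℝ)⌉₊ + 1)) →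
        s.card ≤ ⌈log (t : ℝ)⌉₊ := by
  have hev := (log_facts D).and (eventually_ge_atTop 2)
  have hnat : ∀ᶠ t : ℕ in atTop, _ := tendsto_natCast_atTop_atTop.eventually hev
  obtain ⟨n0, hn0⟩ := eventually_atTop.mp hnat
  refine ⟨n0, fun t ht s hs => ?_⟩
  obtain ⟨⟨f1, f2, f3, f4⟩, ht2⟩ := hn0 t ht
  by_contra hcard
  set K : ℕ := ⌈log (t : ℝ)⌉₊ with hK
  have hcard : K < s.card := not_le.mp hcard
  have hDR : (1 : ℝ) ≤ D := by exact_mod_cast hD
  have hs0 : 0 < log (t : ℝ) := by linarith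
  have hKge : log (t : ℝ) ≤ K := Nat.le_ceil _
  have hKlt : (K : ℝ) < log t + 1 := Nat.ceil_lt_add_one hs0.le
  set N : ℕ := K + 1 with hN
  have hNR : (N : ℝ) = K + 1 := by rw [hN]; push_cast; ring
  have hN1 : log (t : ℝ) + 1 ≤ N := by rw [hNR]; linarith
  have hN2 : (N : ℝ) ≤ log t + 2 := by rw [hNR]; linarith
  have hN0 : (0 : ℝ) < N := by linarith
  obtain ⟨s', hs's, hs'card⟩ := Finset.exists_subset_card_eq (show N ≤ s.card by omega)
  set nn : Fin N → ℕ := fun i => s'.orderEmbOfFin hs'card i with hnn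
  have hnnmem : ∀ i, nn i ∈ s := fun i => hs's (Finset.orderEmbOfFin_mem s' hs'card i)
  have hnnmono : StrictMono nn := (s'.orderEmbOfFin hs'card).strictMono
  have hnnt : ∀ i, t ≤ nn i := fun i => (hs _ (hnnmem i)).2.1
  have hnnW : ∀ i, nn i ≤ t + D * N := fun i => (hs _ (hnnmem i)).2.2
  set xx : Fin N → ℕ := fun i => nn i - t with hxx
  have hxxmono : StrictMono xx := by
    intro i j hij
    have := hnnmono hij
    have h1 := hnnt i
    have h2 := hnnt j
    simp only [hxx]
    omega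
  have hxxW : ∀ i, xx i ≤ D * N := by
    intro i
    have h1 := hnnt i
    have h2 := hnnW i
    simp only [hxx]
    omega
  set x : Fin N → ℤ := fun i => (xx i : ℤ) with hx
  have hxinj : Function.Injective x := by
    intro i j h
    apply hxxmono.injective
    have : (xx i : ℤ) = xx j := h
    exact_mod_cast this
  have hxxR : ∀ i, ((xx i : ℕ) : ℝ) = (nn i : ℝ) - t := fun i => by
    simp only [hxx]
    rw [Nat.cast_sub (hnnt i)]
  have hxR : ∀ i, (x i : ℝ) = (nn i : ℝ) - t := fun i => by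
    rw [← hxxR]; simp [hx]
  have hx0 : ∀ i, 0 ≤ (x i : ℝ) := by
    intro i
    simp [hx]
  set W : ℝ := (D : ℝ) * N with hW
  have hxW : ∀ i, (x i : ℝ) ≤ W := by
    intro i
    have h1 : ((xx i : ℕ) : ℝ) ≤ ((D * N : ℕ) : ℝ) := by exact_mod_cast hxxW i
    rw [hW]
    simpa [hx] using h1
  have hxabs : ∀ i, |(x i : ℝ)| ≤ W := fun i => by rw [abs_of_nonneg (hx0 i)]; exact hxW i
  have hW1 : 1 ≤ W := by
    rw [hW]
    nlinarith
  have ht0 : (0 : ℝ) < t := by linarith
  obtain ⟨p, hp, hp1, hp2⟩ := exists_prime_window (y := 2 * t / (N * log t)) (by positivity)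
  obtain ⟨hpW, e1, e2⟩ := exponents D hD t (log t) (log (log t)) rfl rfl f1 f2 f3 f4 N p hN1 hN2 hp1 hp2
  -- gcd
  have hNpos : 0 < N := by omega
  have : Nonempty (Fin N) := ⟨⟨0, hNpos⟩⟩
  set a : Fin N → ℤ := fun i => round (exp (nn i : ℝ)) with ha
  obtain ⟨b, hb, hb1⟩ := Finset.extract_gcd a (Finset.univ_nonempty (α := Fin N))
  set g : ℤ := Finset.univ.gcd a with hg
  have hg0 : g ≠ 0 := by
    intro h0
    have := hb ⟨0, hNpos⟩ (Finset.mem_univ _)
    rw [h0, zero_mul] at this
    exact round_exp_ne_zero _ this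
  have hgpos : 0 < g := by
    have h3 : 0 ≤ g := by
      have : |g| = g := by rw [Int.abs_eq_normalize, hg, Finset.normalize_gcd]
      rw [← this]
      exact abs_nonneg _
    exact lt_of_le_of_ne h3 (Ne.symm hg0)
  have hgR : (1 : ℝ) ≤ g := by exact_mod_cast hgpos
  obtain ⟨js, hjs⟩ : ∃ js, ¬ (p : ℤ) ∣ b js := by
    by_contra hcon
    have hcon' : ∀ js, (p : ℤ) ∣ b js := fun js => by
      by_contra h; exact hcon ⟨js, h⟩
    have h3 : (p : ℤ) ∣ Finset.univ.gcd b := Finset.dvd_gcd fun i _ => hcon' i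
    rw [hb1] at h3
    have := Int.le_of_dvd one_pos h3
    have := hp.two_le
    omega
  set h : ℝ := -((120 * D + 24) * (t * log (log t) / (2 * log t))) with hh
  have hbad : ∀ i, |exp (nn i : ℝ) - a i| ≤ exp h := by
    intro i
    have h5 : |exp (nn i : ℝ) - a i| ≤ thr (120 * D + 24) (nn i) := (hs _ (hnnmem i)).1
    refine h5.trans ?_
    rw [thr]
    refine exp_le_exp.mpr ?_
    rw [hh, neg_le_neg_iff]
    have hnt : (t : ℝ) ≤ nn i := by exact_mod_cast hnnt i
    have hn2 : (nn i : ℝ) ≤ (t : ℝ) ^ 2 := by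
      have h6 : (nn i : ℝ) ≤ t + D * N := by exact_mod_cast hnnW i
      have h7 : (D : ℝ) * N ≤ t := by
        have hs12 : 12 ≤ log (t : ℝ) := by linarith
        have h8 : (D : ℝ) * N ≤ 2 * D * log t := by nlinarith
        have h9 : 2 * D * log t ≤ (4 * D + 8) * log t ^ 3 := by
          have : log (t : ℝ) ≤ log t ^ 3 := by nlinarith [pow_pos hs0 2]
          have h10 : 0 ≤ log (t : ℝ) ^ 3 := by positivity
          nlinarith
        linarith
      nlinarith
    have hn0 : (0 : ℝ) < nn i := by linarith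
    have hl1 : log (t : ℝ) ≤ log (nn i) := log_le_log ht0 hnt
    have hl2 : log (nn i : ℝ) ≤ 2 * log t := by
      calc log (nn i : ℝ) ≤ log ((t : ℝ) ^ 2) := log_le_log hn0 hn2
        _ = 2 * log t := by rw [log_pow]; push_cast; ring
    have hl3 : log (log (t : ℝ)) ≤ log (log (nn i)) := log_le_log hs0 hl1
    have hl0 : 0 < log (nn i : ℝ) := by linarith
    have hu0 : 0 < log (log (t : ℝ)) := by linarith
    have h13 : (0 : ℝ) ≤ log (log (nn i)) := by linarith
    have h11 : t * log (log t) / (2 * log t) ≤ nn i * log (log (nn i)) / log (nn i) := by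
      have h14 : t * log (log t) ≤ nn i * log (log (nn i)) :=
        mul_le_mul hnt hl3 hu0.le hn0.le
      have h15 : 0 ≤ nn i * log (log (nn i)) := mul_nonneg hn0.le h13
      exact div_le_div₀ h15 h14 hl0 hl2
    have h12 : (0 : ℝ) ≤ 120 * D + 24 := by positivity
    have h16 : (120 * (D : ℝ) + 24) * nn i * log (log (nn i)) / log (nn i) =
        (120 * D + 24) * (nn i * log (log (nn i)) / log (nn i)) := by ring
    rw [h16]
    exact mul_le_mul_of_nonneg_left h11 h12
  have hbound : ∀ i, |(b i : ℝ) - exp t / g * exp ((x i : ℝ) * (1 : ℕ))| ≤ exp h := by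
    intro i
    have h3 : (a i : ℝ) = g * b i := by exact_mod_cast hb i (Finset.mem_univ _)
    have h4 : (b i : ℝ) - exp t / g * exp ((x i : ℝ) * (1 : ℕ)) =
        -((exp (nn i : ℝ) - a i) / g) := by
      rw [h3, Nat.cast_one, mul_one, hxR, exp_sub]
      have : exp (t : ℝ) ≠ 0 := (exp_pos _).ne'
      field_simp
      ring
    rw [h4, abs_neg, abs_div, abs_of_pos (by linarith : (0:ℝ) < g)]
    calc |exp (nn i : ℝ) - a i| / g ≤ |exp (nn i : ℝ) - a i| := div_le_self (abs_nonneg _) hgR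
      _ ≤ exp h := hbad i
  have hpN : ¬ (p : ℤ) ∣ (((D * N).factorial : ℕ) : ℤ) := by
    intro hdvd
    have h1 : p ∣ (D * N).factorial := by exact_mod_cast hdvd
    rw [hp.dvd_factorial] at h1
    have h2 : (p : ℝ) ≤ ((D * N : ℕ) : ℝ) := by exact_mod_cast h1
    push_cast at h2
    linarith
  have hgl := general_lemma x hxinj hW1 hxabs (T := exp t / g) (by positivity) 1 le_rfl b hbound p hp
    (((D * N).factorial : ℕ) : ℤ) (dvd_factorial_nodes xx hxxmono (D * N) hxxW) hpN (by
      intro h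
      have := Nat.le_of_dvd one_pos h
      have := hp.two_le
      omega) js hjs
  rw [Fintype.card_fin] at hgl
  have hVpos : (0 : ℝ) ≤ |((((D * N).factorial : ℕ) : ℤ) : ℝ)| := abs_nonneg _
  have hs12 : 12 ≤ log (t : ℝ) := by linarith
  have hW2s : W ≤ 2 * D * log t := by rw [hW]; nlinarith
  have hss : 4 * D * log t ≤ log t ^ 2 := by nlinarith
  have hV : |((((D * N).factorial : ℕ) : ℤ) : ℝ)| ≤ exp (4 * D * log t * log (log t)) := by
    have h1 : |((((D * N).factorial : ℕ) : ℤ) : ℝ)| = ((D * N).factorial : ℝ) := by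
      rw [Int.cast_natCast, Nat.abs_cast]
    rw [h1]
    have h2 := factorial_le_exp (D * N) (Nat.mul_pos (by omega) hNpos)
    push_cast at h2
    refine h2.trans (exp_le_exp.mpr ?_)
    have h3 : log (D * N : ℝ) ≤ 2 * log (log t) := by
      calc log (D * N : ℝ) ≤ log (log t ^ 2) := by
            refine log_le_log (by linarith) ?_
            linarith
        _ = 2 * log (log t) := by rw [log_pow]; push_cast; ring
    have hDN0 : 0 ≤ (D : ℝ) * N := by positivity
    calc (D : ℝ) * N * log (D * N) ≤ (D : ℝ) * N * (2 * log (log t)) :=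
          mul_le_mul_of_nonneg_left h3 hDN0
      _ ≤ (2 * D * log t) * (2 * log (log t)) :=
          mul_le_mul_of_nonneg_right hW2s (by linarith)
      _ = _ := by ring
  have hWz : 2 * W * ((1 : ℕ) : ℝ) ≤ exp (2 * log (log t)) := by
    have h3 : exp (2 * log (log (t : ℝ))) = log t ^ 2 := by
      rw [two_mul, exp_add, exp_log hs0]; ring
    rw [h3, Nat.cast_one, mul_one]
    linarith
  have hfin := product_bound N p hNpos hp.pos |((((D * N).factorial : ℕ) : ℤ) : ℝ)|
    (2 * W * ((1 : ℕ) : ℝ)) (exp t / g) ((1 : ℕ) : ℝ) (exp h)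
    (4 * D * log t * log (log t)) (2 * log (log t)) t 0 h hVpos hV (by positivity) hWz
    (by positivity) (div_le_self (exp_pos _).le hgR) (by positivity) (by simp) (exp_pos _).le le_rfl
  have hlt : exp (-1 : ℝ) < 1 / 2 := by
    have := exp_one_gt_d9
    rw [exp_neg, inv_eq_one_div]
    exact one_div_lt_one_div_of_lt (by norm_num) (by linarith)
  have hA : exp (p * log p + (2 * p + 1) * (4 * D * log t * log (log t)) + log N +
      (N * p + 1) * log 2 + N * p * (2 * log (log t)) +
      (-(N * p * log (N * p)) + N * p) + 2 * W * ((1 : ℕ) : ℝ) + t) ≤ exp (-1) := by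
    refine exp_le_exp.mpr ?_
    rw [Nat.cast_one, mul_one]
    exact e1
  have hB : exp (p * log p + (2 * p + 1) * (4 * D * log t * log (log t)) + log N +
      (N * p + 1) * log 2 + 1 + p * 0 + h) ≤ exp (-1) := exp_le_exp.mpr e2
  have h17 := (hgl.trans hfin).trans (add_le_add hA hB)
  linarith

end Pool.Agent.Helper16
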